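import Pool.Agent.H20.ProjTwoTrans

/-!
Transfer of the linear core to subgroups of `PGL(m, F)` acting on `ℙ F (Fin m → F)`.
-/

namespace Pool.Agent.H20.ProjTwoTrans

open Module Matrix MatrixGroups
open scoped LinearAlgebra.Projectivization

variable {F : Type*} [Field F] {m : ℕ}

/-- matrices as linear equivalences -/
noncomputable def lin : GL (Fin m) F ≃* ((Fin m → F) ≃ₗ[F] (Fin m → F)) :=
  (Matrix.GeneralLinearGroup.toLin).trans (LinearMap.GeneralLinearGroup.generalLinearEquiv F _)

lemma lin_apply (A : GL (Fin m) F) (x : Fin m → F) : lin A x = (A : Matrix (Fin m) (Fin m) F) *ᵥ x :=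
  rfl

/-- the full preimage in `GL(V)` of a subgroup of `PGL` -/
noncomputable def lift (G : Subgroup (PGL(Fin m, F))) :
    Subgroup ((Fin m → F) ≃ₗ[F] (Fin m → F)) :=
  (G.comap ProjGenLinGroup.mk).map lin.toMonoidHom

lemma mem_lift {G : Subgroup (PGL(Fin m, F))} (A : GL (Fin m) F) :
    lin A ∈ lift G ↔ ProjGenLinGroup.mk A ∈ G := by
  unfold lift
  rw [Subgroup.mem_map]
  constructor
  · rintro ⟨B, hB, h⟩
    have : B = A := lin.injective h
    subst this
    exact hB
  · intro h
    exact ⟨A, h, rfl⟩

lemma smul_mk_eq_iff (A : GL (Fin m) F) {v w : Fin m → F} (hv : v ≠ 0) (hw : w ≠ 0) :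
    (ProjGenLinGroup.mk A : PGL(Fin m, F)) • Projectivization.mk F v hv
      = Projectivization.mk F w hw ↔ ∃ c : F, c ≠ 0 ∧ lin A v = c • w := by
  rw [Projectivization.PGL.mk_smul_mk, Projectivization.mk_eq_mk_iff]
  constructor
  · rintro ⟨a, ha⟩
    refine ⟨a, a.ne_zero, ?_⟩
    rw [lin_apply]
    exact ha.symm
  · rintro ⟨c, hc, h⟩
    refine ⟨Units.mk0 c hc, ?_⟩
    rw [lin_apply] at h
    exact h.symm

lemma pair_ne_iff {v w : Fin m → F} (hv : v ≠ 0) (hw : w ≠ 0) :
    Projectivization.mk F v hv ≠ Projectivization.mk F w hw ↔ LinearIndependent F ![v, w] := by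
  rw [← Projectivization.independent_pair_iff_ne, Projectivization.independent_iff]
  constructor
  · intro h
    rw [LinearIndependent.pair_iff' hv]
    intro a ha
    have := (Projectivization.independent_pair_iff_ne (K := F) (Projectivization.mk F v hv)
      (Projectivization.mk F w hw)).mp (by rw [Projectivization.independent_iff]; exact h)
    apply this
    rw [Projectivization.mk_eq_mk_iff']
    have ha0 : a ≠ 0 := by
      rintro rfl
      exact hw (by simpa using ha.symm)
    exact ⟨a⁻¹, by rw [← ha, smul_smul, inv_mul_cancel₀ ha0, one_smul]⟩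
  · intro h
    rw [← Projectivization.independent_iff, Projectivization.independent_pair_iff_ne]
    intro heq
    rw [Projectivization.mk_eq_mk_iff'] at heq
    obtain ⟨a, ha⟩ := heq
    rw [LinearIndependent.pair_iff] at h
    have := h 1 (-a) (by rw [← ha]; module)
    exact one_ne_zero this.1

lemma twoTrans_lift {G : Subgroup (PGL(Fin m, F))}
    (h : MulAction.IsMultiplyPretransitive G (ℙ F (Fin m → F)) 2) : TwoTrans (lift G) := by
  have hscal : ∀ c : F, c ≠ 0 → ∃ g ∈ lift G, ∀ x, g x = c • x := by
    intro c hc
    refine ⟨lin (GeneralLinearGroup.scalar (Fin m) (Units.mk0 c hc)), ?_, ?_⟩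
    · rw [mem_lift]
      simp [G.one_mem]
    · intro x
      rw [lin_apply]
      ext i
      simp [Matrix.GeneralLinearGroup.coe_scalar]
  refine ⟨hscal, ?_⟩
  intro v w v' w' h1 h2
  rw [MulAction.is_two_pretransitive_iff] at h
  have hv : v ≠ 0 := h1.ne_zero 0
  have hw : w ≠ 0 := h1.ne_zero 1
  have hv' : v' ≠ 0 := h2.ne_zero 0
  have hw' : w' ≠ 0 := h2.ne_zero 1
  obtain ⟨⟨g, hg⟩, e1, e2⟩ := h ((pair_ne_iff hv hw).mpr h1) ((pair_ne_iff hv' hw').mpr h2)
  obtain ⟨A, rfl⟩ := ProjGenLinGroup.mk_surjective g
  have e1' : (ProjGenLinGroup.mk A : PGL(Fin m, F)) • Projectivization.mk F v hv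
      = Projectivization.mk F v' hv' := e1
  have e2' : (ProjGenLinGroup.mk A : PGL(Fin m, F)) • Projectivization.mk F w hw
      = Projectivization.mk F w' hw' := e2
  rw [smul_mk_eq_iff] at e1' e2'
  obtain ⟨c, hc, e3⟩ := e1'
  obtain ⟨c', hc', e4⟩ := e2'
  obtain ⟨z, hz, ez⟩ := hscal c⁻¹ (inv_ne_zero hc)
  refine ⟨z * lin A, (lift G).mul_mem hz ((mem_lift A).mpr hg), ?_, c⁻¹ * c',
    mul_ne_zero (inv_ne_zero hc) hc', ?_⟩
  · rw [LinearEquiv.mul_apply, e3, ez, smul_smul, inv_mul_cancel₀ hc, one_smul]
  · rw [LinearEquiv.mul_apply, e4, ez, smul_smul]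

/-- the coordinate functional -/
def crd (i : Fin m) : Dual F (Fin m → F) := LinearMap.proj i

/-- If the preimage contains all transvections then the group contains `PSL`. -/
lemma psl_le_of_all {G : Subgroup (PGL(Fin m, F))}
    (hall : ∀ (f : Dual F (Fin m → F)) (v : Fin m → F), f v = 0 → HasT (lift G) f v) :
    (ProjectiveSpecialLinearGroup.toPGL (n := Fin m) (R := F)).range ≤ G := by
  classical
  -- the set of matrices in `SL` whose image is in `G`
  let H : Subgroup (SpecialLinearGroup (Fin m) F) := G.comap SpecialLinearGroup.toPGL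
  have memH : ∀ A : SpecialLinearGroup (Fin m) F,
      A ∈ H ↔ lin (SpecialLinearGroup.toGL A) ∈ lift G := by
    intro A
    rw [mem_lift]
    rfl
  -- transvections
  have htr : ∀ (t : TransvectionStruct (Fin m) F), t.toSpecialLinearGroup ∈ H := by
    intro t
    rw [memH]
    obtain ⟨g, hg, e⟩ := hall (t.c • crd t.j) (Pi.single t.i 1) (by simp [crd, t.hij.symm])
    have : lin (SpecialLinearGroup.toGL t.toSpecialLinearGroup) = g := by
      ext1 x
      rw [e, lin_apply]
      have h1 : ((SpecialLinearGroup.toGL t.toSpecialLinearGroup : GL (Fin m) F) :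
          Matrix (Fin m) (Fin m) F) = 1 + Matrix.single t.i t.j t.c := rfl
      rw [h1, Matrix.add_mulVec, Matrix.one_mulVec]
      congr 1
      ext k
      simp only [Matrix.single_mulVec_eq, crd, LinearMap.smul_apply, LinearMap.proj_apply,
        smul_eq_mul, Pi.smul_apply]
    rw [this]
    exact hg
  -- elementary diagonal matrices
  have hdg : ∀ (i j : Fin m) (hij : i ≠ j) (a : F) (ha : a ≠ 0),
      SpecialLinearGroup.diag2n hij a ha ∈ H := by
    intro i j hij a ha
    rw [memH]
    obtain ⟨g, hg, e⟩ := hasDiag hall (f := crd j) (h := crd i) (v := Pi.single i 1)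
      (w := Pi.single j 1) (by simp [crd, hij.symm]) (by simp [crd]) (by simp [crd, hij])
      (by simp [crd]) ha
    have : lin (SpecialLinearGroup.toGL (SpecialLinearGroup.diag2n hij a ha)) = g := by
      ext1 x
      rw [e, lin_apply]
      have h1 : ((SpecialLinearGroup.toGL (SpecialLinearGroup.diag2n hij a ha) : GL (Fin m) F) :
          Matrix (Fin m) (Fin m) F) = diagonal (fun k ↦
      if k = i then a else if k = j then a⁻¹ else 1) := rfl
      rw [h1]
      ext k
      rw [Matrix.mulVec_diagonal]
      simp only [crd, LinearMap.proj_apply, Pi.add_apply, Pi.smul_apply, smul_eq_mul,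
        Pi.single_apply]
      by_cases hki : k = i
      · subst hki
        simp [hij]
        ring
      · by_cases hkj : k = j
        · subst hkj
          simp [hki]
          ring
        · simp [hki, hkj]
    rw [this]
    exact hg
  -- diagonal matrices of determinant one, by induction on the support
  have hdiag : ∀ (s : ℕ) (D : Fin m → F) (hD : (diagonal D).det = 1),
      (Finset.univ.filter (fun i => D i ≠ 1)).card = s →
      (⟨diagonal D, hD⟩ : SpecialLinearGroup (Fin m) F) ∈ H := by
    intro s
    induction s using Nat.strong_induction_on with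
    | _ s ih =>
      intro D hD hs
      have hprod : ∏ i, D i = 1 := by rwa [det_diagonal] at hD
      have hne : ∀ i, D i ≠ 0 := by
        intro i h0
        have : ∏ i, D i = 0 := Finset.prod_eq_zero (Finset.mem_univ i) h0
        rw [hprod] at this
        exact one_ne_zero this
      by_cases hall1 : ∀ i, D i = 1
      · have h1 : (⟨diagonal D, hD⟩ : SpecialLinearGroup (Fin m) F) =
            (1 : SpecialLinearGroup (Fin m) F) := by
          apply Subtype.ext
          have h2 : D = fun _ => 1 := funext hall1
          change diagonal D = (1 : Matrix (Fin m) (Fin m) F)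
          rw [h2, diagonal_one]
        rw [h1]
        exact H.one_mem
      · push Not at hall1
        obtain ⟨i, hi⟩ := hall1
        obtain ⟨j, hji, hj⟩ : ∃ j, j ≠ i ∧ D j ≠ 1 := by
          by_contra hcon
          push Not at hcon
          have : ∏ k, D k = D i := by
            rw [Finset.prod_eq_single i]
            · intro b _ hb
              exact hcon b hb
            · intro h
              exact absurd (Finset.mem_univ i) h
          rw [hprod] at this
          exact hi this.symm
        -- remove the entry at `i`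
        let D' : Fin m → F := fun k => if k = i then 1 else if k = j then D j * D i else D k
        have hDD' : diagonal D = (SpecialLinearGroup.diag2n hji.symm (D i) (hne i)).1 *
            diagonal D' := by
          rw [SpecialLinearGroup.diag2n_coe, diagonal_mul_diagonal]
          congr 1
          funext k
          by_cases hki : k = i
          · subst hki; simp [D']
          · by_cases hkj : k = j
            · subst hkj
              simp only [hki, if_false, if_true, D']
              field_simp [hne i]
            · simp [D', hki, hkj]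
        have hD' : (diagonal D').det = 1 := by
          have h1 := congrArg Matrix.det hDD'
          rw [det_mul, hD, (SpecialLinearGroup.diag2n hji.symm (D i) (hne i)).2, one_mul] at h1
          exact h1.symm
        have hlt : (Finset.univ.filter (fun i => D' i ≠ 1)).card < s := by
          rw [← hs]
          apply Finset.card_lt_card
          rw [Finset.ssubset_iff_of_subset]
          · exact ⟨i, by simp [hi], by simp [D']⟩
          · intro k hk
            simp only [Finset.mem_filter, Finset.mem_univ, true_and] at hk ⊢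
            by_cases hki : k = i
            · subst hki; exact hi
            · by_cases hkj : k = j
              · subst hkj; exact hj
              · simpa [D', hki, hkj] using hk
        have h2 := ih _ hlt D' hD' rfl
        have h3 : (⟨diagonal D, hD⟩ : SpecialLinearGroup (Fin m) F) =
            SpecialLinearGroup.diag2n hji.symm (D i) (hne i) * ⟨diagonal D', hD'⟩ := by
          apply Subtype.ext
          exact hDD'
        rw [h3]
        exact H.mul_mem (hdg _ _ _ _ _) h2
  -- lists of transvections
  have hlist : ∀ L : List (TransvectionStruct (Fin m) F),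
      ∃ h : (L.map TransvectionStruct.toMatrix).prod.det = 1,
        (⟨(L.map TransvectionStruct.toMatrix).prod, h⟩ : SpecialLinearGroup (Fin m) F) ∈ H := by
    intro L
    induction L with
    | nil =>
      refine ⟨by simp, ?_⟩
      have h1 : (⟨(([] : List (TransvectionStruct (Fin m) F)).map
          TransvectionStruct.toMatrix).prod, by simp⟩ : SpecialLinearGroup (Fin m) F) =
            (1 : SpecialLinearGroup (Fin m) F) := Subtype.ext rfl
      rw [h1]
      exact H.one_mem
    | cons t L ih =>
      obtain ⟨h1, h2⟩ := ih
      have h3 : ((t :: L).map TransvectionStruct.toMatrix).prod =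
          (t.toSpecialLinearGroup : Matrix (Fin m) (Fin m) F) *
            (L.map TransvectionStruct.toMatrix).prod := by
        simp
      have h4 : ((t :: L).map TransvectionStruct.toMatrix).prod.det = 1 := by
        rw [h3, det_mul, h1, mul_one]
        exact t.toSpecialLinearGroup.2
      refine ⟨h4, ?_⟩
      have h5 : (⟨((t :: L).map TransvectionStruct.toMatrix).prod, h4⟩ :
          SpecialLinearGroup (Fin m) F) =
          t.toSpecialLinearGroup * ⟨(L.map TransvectionStruct.toMatrix).prod, h1⟩ := by
        apply Subtype.ext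
        exact h3
      rw [h5]
      exact H.mul_mem (htr t) h2
  have hall' : ∀ A : SpecialLinearGroup (Fin m) F, A ∈ H := by
    intro A
    obtain ⟨L, L', D, hLD⟩ :=
      Matrix.Pivot.exists_list_transvec_mul_diagonal_mul_list_transvec (A : Matrix (Fin m) (Fin m) F)
    obtain ⟨h1, h2⟩ := hlist L
    obtain ⟨h3, h4⟩ := hlist L'
    have hD : (diagonal D).det = 1 := by
      have := congrArg Matrix.det hLD
      rw [det_mul, det_mul, h1, h3, one_mul, mul_one, A.2] at this
      exact this.symm
    have h5 : A = ⟨_, h1⟩ * ⟨diagonal D, hD⟩ * ⟨_, h3⟩ := by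
      apply Subtype.ext
      exact hLD
    rw [h5]
    exact H.mul_mem (H.mul_mem h2 (hdiag _ D hD rfl)) h4
  rintro _ ⟨x, rfl⟩
  obtain ⟨A, rfl⟩ := QuotientGroup.mk_surjective x
  exact hall' A

/-- Overgroups of `PSL` are two-transitive. -/
lemma twoTrans_of_psl_le {G : Subgroup (PGL(Fin m, F))}
    (h : (ProjectiveSpecialLinearGroup.toPGL (n := Fin m) (R := F)).range ≤ G) :
    MulAction.IsMultiplyPretransitive G (ℙ F (Fin m → F)) 2 := by
  have hSL : MulAction.IsMultiplyPretransitive (SpecialLinearGroup (Fin m) F)
    (ℙ F (Fin m → F)) 2 := inferInstance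
  rw [MulAction.is_two_pretransitive_iff] at hSL ⊢
  intro a b c e hab hce
  obtain ⟨g, h1, h2⟩ := hSL hab hce
  have hmem : ProjGenLinGroup.mk (SpecialLinearGroup.toGL g) ∈ G :=
    h ⟨(g : ProjectiveSpecialLinearGroup (Fin m) F), rfl⟩
  have key : ∀ p : ℙ F (Fin m → F),
      (ProjGenLinGroup.mk (SpecialLinearGroup.toGL g) : PGL(Fin m, F)) • p = g • p := by
    intro p
    induction p using Projectivization.ind with
    | _ v hv => rfl
  refine ⟨⟨_, hmem⟩, ?_, ?_⟩
  · exact (key a).trans h1
  · exact (key b).trans h2

end Pool.Agent.H20.ProjTwoTrans
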