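import Mathlib

/-!
Two-transitive subgroups of the projective linear group: the linear core.
-/

namespace Pool.Agent.H20.ProjTwoTrans

open Module

variable {F V : Type*} [Field F] [AddCommGroup V] [Module F V]

/-- A subgroup `G` of `GL(V)` containing the scalars is two-transitive on the points of the
projective space, expressed with vectors. -/
structure TwoTrans (G : Subgroup (V ≃ₗ[F] V)) : Prop where
  scalar : ∀ c : F, c ≠ 0 → ∃ g ∈ G, ∀ x, g x = c • x
  trans : ∀ v w v' w' : V, LinearIndependent F ![v, w] → LinearIndependent F ![v', w'] →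
     ∃ g ∈ G, g v = v' ∧ ∃ c : F, c ≠ 0 ∧ g w = c • w'

/-- `G` contains the map `x ↦ x + f x • v`. -/
def HasT (G : Subgroup (V ≃ₗ[F] V)) (f : Dual F V) (v : V) : Prop :=
  ∃ g ∈ G, ∀ x, g x = x + f x • v

variable {G : Subgroup (V ≃ₗ[F] V)}

lemma indep_add {v w : V} (h : LinearIndependent F ![v, w]) (b : F) :
    LinearIndependent F ![v, w + b • v] := by
  rw [LinearIndependent.pair_iff] at h ⊢
  intro s t hst
  have h1 : (s + t * b) • v + t • w = 0 := by
    rw [← hst]; module
  obtain ⟨h2, h3⟩ := h _ _ h1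
  subst h3
  simpa using h2

lemma exists_unip (hG : TwoTrans G) {v w : V} (h : LinearIndependent F ![v, w]) (b : F) :
    ∃ k ∈ G, k v = v ∧ k w = w + b • v := by
  by_cases H : ∃ g₁ ∈ G, ∃ a : F, a ≠ 0 ∧ a ≠ 1 ∧ g₁ v = v ∧ g₁ w = a • w
  · obtain ⟨g₁, hg₁, a, ha0, ha1, hv1, hw1⟩ := H
    have hne : (1 - a⁻¹) ≠ 0 := by
      intro h0
      apply ha1
      have : a⁻¹ = 1 := by rw [sub_eq_zero] at h0; exact h0.symm
      simpa using this
    obtain ⟨g, hg, hv, c, hc, hw⟩ := hG.trans v w v (w + (b / (1 - a⁻¹)) • v) h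
      (indep_add h _)
    refine ⟨(g * g₁) * (g₁ * g)⁻¹, G.mul_mem (G.mul_mem hg hg₁) (G.inv_mem (G.mul_mem hg₁ hg)),
      ?_, ?_⟩
    · set k := (g * g₁) * (g₁ * g)⁻¹ with hk
      have hk' : k * (g₁ * g) = g * g₁ := by rw [hk]; group
      have h1 : k (g₁ (g v)) = g (g₁ v) := by
        have := congrArg (fun e : V ≃ₗ[F] V => e v) hk'
        simpa using this
      rw [hv, hv1, hv] at h1
      exact h1
    · set k := (g * g₁) * (g₁ * g)⁻¹ with hk
      have hk' : k * (g₁ * g) = g * g₁ := by rw [hk]; group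
      have h0 : k (g₁ (g v)) = g (g₁ v) := by
        have := congrArg (fun e : V ≃ₗ[F] V => e v) hk'
        simpa using this
      rw [hv, hv1, hv] at h0
      have h1 : k (g₁ (g w)) = g (g₁ w) := by
        have := congrArg (fun e : V ≃ₗ[F] V => e w) hk'
        simpa using this
      rw [hw, hw1] at h1
      simp only [map_smul, map_add, hv1, hw1, h0, hw] at h1
      set y := b / (1 - a⁻¹) with hy
      have h2 : (c * a) • (k w) = (c * a) • (w + (y - y * a⁻¹) • v) := by
        have e1 : (c * a) • (k w) = c • (a • k w + y • v) - (c * y) • v := by module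
        rw [e1, h1]
        have e2 : c * y = (c * a) * (y * a⁻¹) := by field_simp
        rw [e2]
        module
      have hca : c * a ≠ 0 := mul_ne_zero hc ha0
      have h3 : k w = w + (y - y * a⁻¹) • v := smul_right_injective V hca h2
      rw [h3]
      congr 2
      rw [hy]
      have : b / (1 - a⁻¹) - b / (1 - a⁻¹) * a⁻¹ = (b / (1 - a⁻¹)) * (1 - a⁻¹) := by ring
      rw [this, div_mul_cancel₀ _ hne]
  · push Not at H
    obtain ⟨g, hg, hv, c, hc, hw⟩ := hG.trans v w v (w + b • v) h (indep_add h _)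
    by_cases hc1 : c = 1
    · subst hc1
      exact ⟨g, hg, hv, by simpa using hw⟩
    · exfalso
      have hc1' : c - 1 ≠ 0 := sub_ne_zero.mpr hc1
      set y := c * b / (c - 1) with hy
      obtain ⟨k, hk, hkv, d, hd, hkw⟩ := hG.trans v w v (w + y • v) h (indep_add h _)
      have hgw' : g (w + y • v) = c • (w + y • v) := by
        rw [map_add, map_smul, hv, hw]
        have : c * b + y = c * y := by rw [hy]; field_simp; ring
        calc c • (w + b • v) + y • v = c • w + (c * b + y) • v := by module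
          _ = c • (w + y • v) := by rw [this]; module
      refine hc1 (H (k⁻¹ * g * k) (G.mul_mem (G.mul_mem (G.inv_mem hk) hg) hk) c hc hc1 ?_ ?_).elim
      · apply k.injective
        have : k ((k⁻¹ * g * k) v) = g (k v) := by
          have e : k * (k⁻¹ * g * k) = g * k := by group
          have := congrArg (fun e : V ≃ₗ[F] V => e v) e
          simp at this ⊢
        rw [this, hkv, hv]
      · apply k.injective
        have : k ((k⁻¹ * g * k) w) = g (k w) := by
          have e : k * (k⁻¹ * g * k) = g * k := by group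
          have := congrArg (fun e : V ≃ₗ[F] V => e w) e
          simp at this ⊢
        rw [this, hkw, map_smul, hgw', map_smul, hkw, smul_comm]

/-! ### The relation `HasT` -/

lemma HasT.add_left {f f' : Dual F V} {v : V} (h : HasT G f v) (h' : HasT G f' v)
    (hf : f v = 0) : HasT G (f + f') v := by
  obtain ⟨g, hg, e⟩ := h
  obtain ⟨g', hg', e'⟩ := h'
  refine ⟨g * g', G.mul_mem hg hg', fun x => ?_⟩
  rw [LinearEquiv.mul_apply, e', e, map_add, map_smul, hf]
  simp only [LinearMap.add_apply, smul_eq_mul, mul_zero, add_zero]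
  module

lemma HasT.add_right {f : Dual F V} {v v' : V} (h : HasT G f v) (h' : HasT G f v')
    (hf' : f v' = 0) : HasT G f (v + v') := by
  obtain ⟨g, hg, e⟩ := h
  obtain ⟨g', hg', e'⟩ := h'
  refine ⟨g * g', G.mul_mem hg hg', fun x => ?_⟩
  rw [LinearEquiv.mul_apply, e', e, map_add, map_smul, hf']
  simp only [smul_eq_mul, mul_zero, add_zero]
  module

lemma HasT.neg_right {f : Dual F V} {v : V} (h : HasT G f v) (hf : f v = 0) :
    HasT G f (-v) := by
  obtain ⟨g, hg, e⟩ := h
  refine ⟨g⁻¹, G.inv_mem hg, fun x => ?_⟩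
  apply g.injective
  have : g (g⁻¹ x) = x := by
    have e : g * g⁻¹ = 1 := by group
    have := congrArg (fun e : V ≃ₗ[F] V => e x) e
    simp at this ⊢
  rw [this, e]
  simp [hf]

lemma HasT.smul_iff {f : Dual F V} {v : V} (a : F) :
    HasT G (a • f) v ↔ HasT G f (a • v) := by
  unfold HasT
  constructor
  · rintro ⟨g, hg, e⟩
    exact ⟨g, hg, fun x => by rw [e]; simp only [LinearMap.smul_apply, smul_eq_mul]; module⟩
  · rintro ⟨g, hg, e⟩
    exact ⟨g, hg, fun x => by rw [e]; simp only [LinearMap.smul_apply, smul_eq_mul]; module⟩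

lemma HasT.conj {f : Dual F V} {v : V} (h : HasT G f v) {k : V ≃ₗ[F] V} (hk : k ∈ G) :
    HasT G (f ∘ₗ (k.symm : V →ₗ[F] V)) (k v) := by
  obtain ⟨g, hg, e⟩ := h
  refine ⟨k * g * k⁻¹, G.mul_mem (G.mul_mem hk hg) (G.inv_mem hk), fun x => ?_⟩
  have h1 : (k * g * k⁻¹) x = k (g (k.symm x)) := rfl
  rw [h1, e, map_add, map_smul]
  simp

/-- commutator of two transvections-like maps -/
lemma HasT.comm {f h : Dual F V} {v w : V} (h1 : HasT G f v) (h2 : HasT G h w)
    (hfv : f v = 0) (hfw : f w = 0) : HasT G f ((h v) • w) := by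
  -- (1 + h ⊗ w)(1 + f ⊗ v)(1 + h ⊗ w)⁻¹ (1 + f ⊗ v)⁻¹ = 1 + h(v) f ⊗ w
  obtain ⟨p, hp, ep⟩ := h1
  obtain ⟨q, hq, eq⟩ := h2
  refine ⟨(q * p) * (p * q)⁻¹, G.mul_mem (G.mul_mem hq hp) (G.inv_mem (G.mul_mem hp hq)),
    fun x => ?_⟩
  set k := (q * p) * (p * q)⁻¹ with hk
  have hk' : k * (p * q) = q * p := by rw [hk]; group
  obtain ⟨y, hy⟩ : ∃ y, x = p (q y) := ⟨q.symm (p.symm x), by simp⟩
  have h0 : k (p (q y)) = q (p y) := by
    have := congrArg (fun e : V ≃ₗ[F] V => e y) hk'
    simpa using this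
  rw [hy, h0]
  simp only [ep, eq, map_add, map_smul, hfv, hfw, smul_eq_mul, mul_zero, add_zero]
  module

lemma indep_swap {v w : V} (h : LinearIndependent F ![v, w]) :
    LinearIndependent F ![w, v] := by
  rw [LinearIndependent.pair_iff] at h ⊢
  intro s t hst
  have := h t s (by rw [← hst]; module)
  exact ⟨this.2, this.1⟩

/-- if `f v = 0`, `v ≠ 0` and `f w ≠ 0` then `v`, `w` are independent -/
lemma indep_of_dual {f : Dual F V} {v w : V} (hv : v ≠ 0) (hfv : f v = 0) (hfw : f w ≠ 0) :
    LinearIndependent F ![v, w] := by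
  rw [LinearIndependent.pair_iff]
  intro s t hst
  have h1 := congrArg f hst
  simp only [map_add, map_smul, hfv, smul_eq_mul, mul_zero, zero_add, map_zero,
    mul_eq_zero] at h1
  have ht : t = 0 := h1.resolve_right hfw
  subst ht
  simp only [zero_smul, add_zero, smul_eq_zero] at hst
  exact ⟨hst.resolve_right hv, rfl⟩

/-- `G` contains a nontrivial transvection -/
def HasNontrivialT (G : Subgroup (V ≃ₗ[F] V)) : Prop :=
  ∃ (f : Dual F V) (v : V), f v = 0 ∧ f ≠ 0 ∧ v ≠ 0 ∧ HasT G f v

lemma exists_T_ne (hG : TwoTrans G) (h0 : HasNontrivialT G) {v w : V}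
    (h : LinearIndependent F ![v, w]) : ∃ f : Dual F V, f v = 0 ∧ f w ≠ 0 ∧ HasT G f v := by
  obtain ⟨f₀, v₀, hfv, hf, hv, hT⟩ := h0
  obtain ⟨w₀, hw₀⟩ : ∃ w₀, f₀ w₀ ≠ 0 := by
    by_contra hcon
    push Not at hcon
    exact hf (LinearMap.ext hcon)
  obtain ⟨k, hk, hkv, c, hc, hkw⟩ := hG.trans v₀ w₀ v w (indep_of_dual hv hfv hw₀) h
  refine ⟨f₀ ∘ₗ (k.symm : V →ₗ[F] V), ?_, ?_, ?_⟩
  · simp [← hkv, hfv]
  · have : k.symm w = c⁻¹ • w₀ := by
      rw [LinearEquiv.symm_apply_eq, map_smul, hkw, smul_smul, inv_mul_cancel₀ hc, one_smul]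
    simp only [LinearMap.coe_comp, LinearEquiv.coe_coe, Function.comp_apply, this, map_smul,
      smul_eq_mul]
    exact mul_ne_zero (inv_ne_zero hc) hw₀
  · rw [← hkv]
    exact hT.conj hk

lemma HasT.smul (hG : TwoTrans G) (h0 : HasNontrivialT G) {f : Dual F V} {v w : V}
    (hfv : f v = 0) (hfw : f w = 0) (h : LinearIndependent F ![v, w]) (hT : HasT G f v)
    (a : F) : HasT G f (a • v) := by
  obtain ⟨h', hw', hv', hT'⟩ := exists_T_ne hG h0 (indep_swap h)
  set c := h' v with hc
  have e1 : HasT G f (c • w) := hT.comm hT' hfv hfw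
  obtain ⟨k, hk, hkv, hkw⟩ := exists_unip hG h (a / c)
  have e2 : HasT G (h' ∘ₗ (k.symm : V →ₗ[F] V)) (w + (a / c) • v) := by
    rw [← hkw]; exact hT'.conj hk
  have e3 : HasT G f (((h' ∘ₗ (k.symm : V →ₗ[F] V)) v) • (w + (a / c) • v)) :=
    hT.comm e2 hfv (by simp [hfv, hfw])
  have e4 : (h' ∘ₗ (k.symm : V →ₗ[F] V)) v = c := by
    have : k.symm v = v := by rw [LinearEquiv.symm_apply_eq, hkv]
    simp [this, hc]
  rw [e4] at e3
  have e5 := e3.add_right (e1.neg_right (by simp [hfw])) (by simp [hfw])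
  have e6 : c • (w + (a / c) • v) + -(c • w) = a • v := by
    rw [smul_add, smul_smul, mul_div_cancel₀ _ hv']
    module
  rwa [e6] at e5

/-- In dimension at least three, a two-transitive group containing one nontrivial transvection
contains all transvections. -/
lemma all_T_of_three_le [FiniteDimensional F V] (hd : 3 ≤ finrank F V) (hG : TwoTrans G)
    (h0 : HasNontrivialT G) (f : Dual F V) (v : V) (hfv : f v = 0) : HasT G f v := by
  by_cases hv : v = 0
  · subst hv; exact ⟨1, G.one_mem, fun x => by simp⟩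
  -- the subspace of all `f`
  have key : ∀ f : Dual F V, f v = 0 → HasT G f v → ∀ a : F, HasT G (a • f) v := by
    intro f hfv hT a
    rw [HasT.smul_iff]
    obtain ⟨w, hw, hind⟩ : ∃ w, f w = 0 ∧ LinearIndependent F ![v, w] := by
      have hk : 2 ≤ finrank F (LinearMap.ker f) := by
        have h1 := LinearMap.finrank_range_add_finrank_ker f
        have h2 : finrank F (LinearMap.range f) ≤ 1 := by
          have := Submodule.finrank_le (LinearMap.range f)
          simpa using this
        omega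
      obtain ⟨w, hw⟩ : ∃ w : LinearMap.ker f, (w : V) ∉ Submodule.span F {v} := by
        by_contra hcon
        push Not at hcon
        have hle : LinearMap.ker f ≤ Submodule.span F {v} := fun x hx => hcon ⟨x, hx⟩
        have h1 := Submodule.finrank_mono hle
        have h2 := finrank_span_singleton (K := F) hv
        omega
      refine ⟨w, w.2, ?_⟩
      rw [LinearIndependent.pair_iff' hv]
      intro a ha
      exact hw (Submodule.mem_span_singleton.mpr ⟨a, ha⟩)
    exact hT.smul hG h0 hfv hw hind a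
  let A : Submodule F (Dual F V) :=
    { carrier := {f | f v = 0 ∧ HasT G f v}
      add_mem' := by
        rintro f f' ⟨h1, h2⟩ ⟨h3, h4⟩
        exact ⟨by simp [h1, h3], h2.add_left h4 h1⟩
      zero_mem' := ⟨by simp, ⟨1, G.one_mem, fun x => by simp⟩⟩
      smul_mem' := by
        rintro a f ⟨h1, h2⟩
        exact ⟨by simp [h1], key f h1 h2 a⟩ }
  have hA : A.dualCoannihilator ≤ Submodule.span F {v} := by
    intro w hw
    rw [Submodule.mem_dualCoannihilator] at hw
    by_contra hcon
    have hind : LinearIndependent F ![v, w] := by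
      rw [LinearIndependent.pair_iff' hv]
      intro a ha
      exact hcon (Submodule.mem_span_singleton.mpr ⟨a, ha⟩)
    obtain ⟨f, hf1, hf2, hf3⟩ := exists_T_ne hG h0 hind
    exact hf2 (hw f ⟨hf1, hf3⟩)
  have hA' : (Submodule.span F {v}).dualAnnihilator ≤ A := by
    rw [← Subspace.dualCoannihilator_dualAnnihilator_eq (W := A)]
    exact Submodule.dualAnnihilator_anti hA
  have : f ∈ A := by
    apply hA'
    rw [Submodule.mem_dualAnnihilator]
    intro w hw
    obtain ⟨a, rfl⟩ := Submodule.mem_span_singleton.mp hw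
    simp [hfv]
  exact this.2

/-- In dimension two, a two-transitive group contains all transvections. -/
lemma all_T_of_two (hd : finrank F V = 2) (hG : TwoTrans G)
    (f : Dual F V) (v : V) (hfv : f v = 0) : HasT G f v := by
  by_cases hv : v = 0
  · subst hv; exact ⟨1, G.one_mem, fun x => by simp⟩
  by_cases hf : f = 0
  · subst hf; exact ⟨1, G.one_mem, fun x => by simp⟩
  obtain ⟨w, hw⟩ : ∃ w, f w ≠ 0 := by
    by_contra hcon
    push Not at hcon
    exact hf (LinearMap.ext hcon)
  have hind := indep_of_dual hv hfv hw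
  obtain ⟨k, hk, hkv, hkw⟩ := exists_unip hG hind (f w)
  refine ⟨k, hk, fun x => ?_⟩
  have hspan : x ∈ Submodule.span F (Set.range ![v, w]) := by
    rw [hind.span_eq_top_of_card_eq_finrank (by simp [hd])]
    trivial
  simp only [Matrix.range_cons, Matrix.range_empty, Set.union_empty, Set.singleton_union,
    Submodule.mem_span_pair] at hspan
  obtain ⟨a, b, rfl⟩ := hspan
  rw [map_add, map_smul, map_smul, hkv, hkw]
  simp only [map_add, map_smul, hfv, smul_eq_mul, mul_zero, zero_add]
  module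

/-- A two-transitive group containing a nonidentity map `x ↦ x + f x • v` contains a nontrivial
transvection (in dimension at least two). -/
lemma hasNontrivialT_of_perspectivity [FiniteDimensional F V] (hd : 2 ≤ finrank F V)
    (hG : TwoTrans G) {f : Dual F V}
    {v : V} (hf : f ≠ 0) (hv : v ≠ 0) (hT : HasT G f v) : HasNontrivialT G := by
  by_cases hfv : f v = 0
  · exact ⟨f, v, hfv, hf, hv, hT⟩
  -- a homology: compare with a conjugate with the same centre
  obtain ⟨w, hw, hw0⟩ : ∃ w, f w = 0 ∧ w ≠ 0 := by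
    have hk : 1 ≤ finrank F (LinearMap.ker f) := by
      have h1 := LinearMap.finrank_range_add_finrank_ker f
      have h2 : finrank F (LinearMap.range f) ≤ 1 := by
        have := Submodule.finrank_le (LinearMap.range f)
        simpa using this
      omega
    have : Nontrivial (LinearMap.ker f) := by
      rw [← Module.finrank_pos_iff (R := F)]
      omega
    obtain ⟨w, hw⟩ := exists_ne (0 : LinearMap.ker f)
    exact ⟨w, w.2, fun h => hw (Subtype.ext h)⟩
  have hind : LinearIndependent F ![v, w] := indep_swap (indep_of_dual hw0 hw hfv)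
  obtain ⟨k, hk, hkv, c, hc, hkw⟩ := hG.trans v w v (w + (1 : F) • v) hind (indep_add hind 1)
  have hT' := hT.conj hk
  rw [hkv] at hT'
  set f' : Dual F V := f ∘ₗ (k.symm : V →ₗ[F] V) with hf'
  have hksv : k.symm v = v := by rw [LinearEquiv.symm_apply_eq, hkv]
  have hf'v : f' v = f v := by simp [hf', hksv]
  have hksw : k.symm (w + (1 : F) • v) = c⁻¹ • w := by
    rw [LinearEquiv.symm_apply_eq, map_smul, hkw, smul_smul, inv_mul_cancel₀ hc]
    simp
  have hf'w : f' w = - f v := by
    have h1 : f' (w + (1 : F) • v) = 0 := by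
      simp only [hf', LinearMap.coe_comp, LinearEquiv.coe_coe, Function.comp_apply, hksw,
        map_smul, hw, smul_zero]
    rw [map_add, map_smul, hf'v] at h1
    simp only [one_smul] at h1
    exact eq_neg_of_add_eq_zero_left h1
  obtain ⟨g, hg, e⟩ := hT
  obtain ⟨g', hg', e'⟩ := hT'
  refine ⟨f' - f, v, by simp [hf'v], ?_, hv, g' * g⁻¹, G.mul_mem hg' (G.inv_mem hg), ?_⟩
  · intro h0
    have := congrArg (fun φ : Dual F V => φ w) h0
    simp only [LinearMap.sub_apply, hf'w, hw, sub_zero, LinearMap.zero_apply, neg_eq_zero] at this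
    exact hfv this
  · intro x
    obtain ⟨y, rfl⟩ := g.surjective x
    have h1 : (g' * g⁻¹) (g y) = g' y := by
      have e : (g' * g⁻¹) * g = g' := by group
      have := congrArg (fun e : V ≃ₗ[F] V => e y) e
      simp at this ⊢
    rw [h1, e', e]
    simp only [map_add, map_smul, LinearMap.sub_apply, hf'v, smul_eq_mul]
    module

/-- In dimension three every two-transitive group contains a nonidentity perspectivity. -/
lemma exists_perspectivity_of_three [FiniteDimensional F V] (hd : finrank F V = 3)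
    (hG : TwoTrans G) : ∃ (f : Dual F V) (v : V), f ≠ 0 ∧ v ≠ 0 ∧ HasT G f v := by
  -- choose a basis
  obtain ⟨b⟩ : Nonempty (Basis (Fin 3) F V) := ⟨Module.finBasisOfFinrankEq F V hd⟩
  have h01 : LinearIndependent F ![b 0, b 1] := by
    have h := b.linearIndependent
    rw [Fintype.linearIndependent_iff] at h
    rw [LinearIndependent.pair_iff]
    intro s t hst
    have h1 := h ![s, t, 0] (by simp [Fin.sum_univ_three, hst])
    exact ⟨by simpa using h1 0, by simpa using h1 1⟩
  obtain ⟨s, hs, hs0, c, hc, hs1⟩ := hG.trans (b 0) (b 1) (b 1) (b 0) h01 (indep_swap h01)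
  -- coordinates of `s (b 2)`
  set μ : F := b.repr (s (b 2)) 2 with hμ
  set p : F := b.repr (s (b 2)) 0 with hp
  set q : F := b.repr (s (b 2)) 1 with hq
  have hs2 : s (b 2) = p • b 0 + q • b 1 + μ • b 2 := by
    conv_lhs => rw [← b.sum_repr (s (b 2))]
    rw [Fin.sum_univ_three]
  have hexp : ∀ x : V, x = b.repr x 0 • b 0 + b.repr x 1 • b 1 + b.repr x 2 • b 2 := by
    intro x
    conv_lhs => rw [← b.sum_repr x]
    rw [Fin.sum_univ_three]
  obtain ⟨z, hz, hz'⟩ := hG.scalar c⁻¹ (inv_ne_zero hc)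
  -- `s ^ 2`
  have hss0 : s (s (b 0)) = c • b 0 := by rw [hs0, hs1]
  have hss1 : s (s (b 1)) = c • b 1 := by rw [hs1, map_smul, hs0]
  have hss2 : s (s (b 2)) = (μ * p + q * c) • b 0 + (p + μ * q) • b 1 + (μ * μ) • b 2 := by
    rw [hs2, map_add, map_add, map_smul, map_smul, map_smul, hs0, hs1, hs2]
    module
  by_cases hcase : s (s (b 2)) = c • b 2
  · -- `s ^ 2` is the scalar `c = μ ^ 2`
    rw [hss2] at hcase
    have e := congrArg (fun x => b.repr x) hcase
    have e0 : μ * p + q * c = 0 := by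
      have := congrArg (fun x => x 0) e
      simpa [Finsupp.single_apply] using this
    have e1 : p + μ * q = 0 := by
      have := congrArg (fun x => x 1) e
      simpa [Finsupp.single_apply] using this
    have e2 : μ * μ = c := by
      have := congrArg (fun x => x 2) e
      simpa [Finsupp.single_apply] using this
    have hμ0 : μ ≠ 0 := by
      rintro h
      rw [h] at e2
      exact hc (by rw [← e2]; ring)
    obtain ⟨z', hz1, hz2⟩ := hG.scalar μ⁻¹ (inv_ne_zero hμ0)
    -- `x ↦ μ⁻¹ • s x` is `x ↦ x + f x • w` with `w = b 0 - μ⁻¹ • b 1`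
    refine ⟨-(b.coord 0) + μ • b.coord 1 - (q • b.coord 2), b 0 - μ⁻¹ • b 1, ?_, ?_,
      z' * s, G.mul_mem hz1 hs, ?_⟩
    · intro h
      have := congrArg (fun φ : Dual F V => φ (b 0)) h
      simp [Finsupp.single_apply] at this
    · intro h
      have := congrArg (fun x => b.repr x 0) h
      simp [Finsupp.single_apply] at this
    · intro x
      rw [LinearEquiv.mul_apply, hz2]
      have hx := hexp x
      set x0 := b.repr x 0
      set x1 := b.repr x 1
      set x2 := b.repr x 2
      have hf : (-(b.coord 0) + μ • b.coord 1 - (q • b.coord 2)) x = -x0 + μ * x1 - q * x2 := by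
        simp [x0, x1, x2]
      rw [hf]
      have hp' : p = - (μ * q) := eq_neg_of_add_eq_zero_left e1
      have hc' : c = μ * μ := e2.symm
      rw [hx, map_add, map_add, map_smul, map_smul, map_smul, hs0, hs1, hs2, hp', hc']
      have t1 : μ⁻¹ * (x1 * (μ * μ)) = μ * x1 := by field_simp
      have t2 : μ⁻¹ * (x2 * (-(μ * q))) = - (q * x2) := by field_simp
      have t3 : μ⁻¹ * (x2 * μ) = x2 := by field_simp
      have t4 : (-x0 + μ * x1 - q * x2) * μ⁻¹ = - (μ⁻¹ * x0) + x1 - μ⁻¹ * (q * x2) := by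
        field_simp
      calc μ⁻¹ • (x0 • b 1 + x1 • (μ * μ) • b 0 + x2 • (-(μ * q) • b 0 + q • b 1 + μ • b 2))
          = (μ⁻¹ * (x1 * (μ * μ)) + μ⁻¹ * (x2 * (-(μ * q)))) • b 0
            + (μ⁻¹ * x0 + μ⁻¹ * (q * x2)) • b 1 + (μ⁻¹ * (x2 * μ)) • b 2 := by module
        _ = (μ * x1 - q * x2) • b 0 + (μ⁻¹ * x0 + μ⁻¹ * (q * x2)) • b 1 + x2 • b 2 := by
            rw [t1, t2, t3]; module
        _ = x0 • b 0 + x1 • b 1 + x2 • b 2 + ((-x0 + μ * x1 - q * x2) • b 0
              - ((-x0 + μ * x1 - q * x2) * μ⁻¹) • b 1) := by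
            rw [t4]; module
        _ = x0 • b 0 + x1 • b 1 + x2 • b 2 +
              (-x0 + μ * x1 - q * x2) • (b 0 - μ⁻¹ • b 1) := by module
  · -- `c⁻¹ s ^ 2` is a nonidentity perspectivity
    refine ⟨b.coord 2, c⁻¹ • s (s (b 2)) - b 2, ?_, ?_, z * (s * s),
      G.mul_mem hz (G.mul_mem hs hs), ?_⟩
    · intro h
      have := congrArg (fun φ : Dual F V => φ (b 2)) h
      simp at this
    · intro h
      apply hcase
      rw [sub_eq_zero] at h
      rw [← h, smul_smul, mul_inv_cancel₀ hc, one_smul]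
      rw [h]
    · intro x
      rw [LinearEquiv.mul_apply, LinearEquiv.mul_apply, hz']
      have hx := hexp x
      set x0 := b.repr x 0
      set x1 := b.repr x 1
      set x2 := b.repr x 2
      have hf : b.coord 2 x = x2 := by simp [x2]
      rw [hf]
      conv_lhs => rw [hx]
      conv_rhs => rw [hx]
      simp only [map_add, map_smul, hss0, hss1]
      have t1 : c⁻¹ * c = 1 := inv_mul_cancel₀ hc
      calc c⁻¹ • (x0 • c • b 0 + x1 • c • b 1 + x2 • s (s (b 2)))
          = (c⁻¹ * c) • (x0 • b 0) + (c⁻¹ * c) • (x1 • b 1) + x2 • (c⁻¹ • s (s (b 2))) := by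
            module
        _ = x0 • b 0 + x1 • b 1 + x2 • b 2 + x2 • (c⁻¹ • s (s (b 2)) - b 2) := by
            rw [t1]; module

/-- the diagonal-like elements are products of transvections -/
lemma hasDiag (hall : ∀ (f : Dual F V) (v : V), f v = 0 → HasT G f v)
    {f h : Dual F V} {v w : V} (hfv : f v = 0) (hfw : f w = 1) (hhw : h w = 0) (hhv : h v = 1)
    {a : F} (ha : a ≠ 0) :
    ∃ g ∈ G, ∀ x, g x = x + ((a - 1) * h x) • v + ((a⁻¹ - 1) * f x) • w := by
  obtain ⟨g1, hg1, e1⟩ := hall f (a • v) (by simp [hfv])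
  obtain ⟨g2, hg2, e2⟩ := hall h ((-a⁻¹) • w) (by simp [hhw])
  obtain ⟨g3, hg3, e3⟩ := hall f (-v) (by simp [hfv])
  obtain ⟨g4, hg4, e4⟩ := hall h w (by simp [hhw])
  refine ⟨g1 * g2 * g1 * g3 * g4 * g3, ?_, fun x => ?_⟩
  · exact G.mul_mem (G.mul_mem (G.mul_mem (G.mul_mem (G.mul_mem hg1 hg2) hg1) hg3) hg4) hg3
  · simp only [LinearEquiv.mul_apply, e1, e2, e3, e4, map_add, map_smul, map_neg, hfv, hfw, hhw,
      hhv, smul_eq_mul, zero_add, mul_one]
    set α := f x
    set β := h x
    have ha' : a * a⁻¹ = 1 := mul_inv_cancel₀ ha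
    match_scalars
    · ring
    · field_simp
      ring
    · field_simp
      ring

end Pool.Agent.H20.ProjTwoTrans
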