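import Pool.Agent.H20.RecExt

set_option autoImplicit false

/-!
Iteration of the extension lemma: three disjoint subsets of `[0,1]` covering almost everything, such
that two non-overlapping windows of the same length never have the same contents.
-/

namespace Pool.Agent.H20.Rec

open MeasureTheory Set

structure Stage where
  S : Finset ℝ
  τ : ℝ → Fin 3
  meas : Measurable τ
  step : IsStep S τ
  bd : ∀ e ∈ S, 0 ≤ e ∧ e ≤ 1
  η : ℝ
  hη : 0 < η

namespace Stage

noncomputable def par (s : Stage) : Par := Classical.choose (exists_par s.S s.bd s.η s.hη)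

lemma par_S (s : Stage) : s.par.S = s.S := (Classical.choose_spec (exists_par s.S s.bd s.η s.hη)).1

lemma par_D (s : Stage) : 8 * s.par.D ≤ s.η :=
  (Classical.choose_spec (exists_par s.S s.bd s.η s.hη)).2.1

lemma par_κ (s : Stage) : s.par.κ * 2 ^ s.par.N ≤ s.η :=
  (Classical.choose_spec (exists_par s.S s.bd s.η s.hη)).2.2

noncomputable def next (s : Stage) (X : Fin 3) : Stage where
  S := s.par.newS s.τ X
  τ := s.par.newτ s.τ X
  meas := s.par.measurable_newτ s.meas X
  step := s.par.isStep_newτ (by rw [s.par_S]; exact s.step) X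
  bd := s.par.mem_newS_bound
  η := min (s.η / 2) (s.par.κ / 8)
  hη := lt_min (half_pos s.hη) (by have := s.par.hκ0; positivity)

end Stage

/-- colour added in step `n` -/
def col (n : ℕ) : Fin 3 := Fin.ofNat 3 n

noncomputable def seq : ℕ → Stage
  | 0 => { S := ∅, τ := fun _ => 0, meas := measurable_const,
           step := ⟨fun _ _ _ _ => rfl, by simp⟩, bd := by simp, η := 1, hη := one_pos }
  | n + 1 => (seq n).next (col n)

/-- set changed in step `n` -/
noncomputable def En (n : ℕ) : Set ℝ := (seq n).par.E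

noncomputable def τn (n : ℕ) : ℝ → Fin 3 := (seq n).τ

lemma τn_succ (n : ℕ) : τn (n + 1) = (seq n).par.newτ (τn n) (col n) := rfl

lemma η_succ_le (n : ℕ) : (seq (n + 1)).η ≤ (seq n).η / 2 := min_le_left _ _

lemma η_succ_le' (n : ℕ) : (seq (n + 1)).η ≤ (seq n).par.κ / 8 := min_le_right _ _

lemma η_add_le (n k : ℕ) : (seq (n + k)).η ≤ (seq n).η * (1 / 2) ^ k := by
  induction k with
  | zero => simp
  | succ k ih =>
    have h1 := η_succ_le (n + k)
    have h2 : n + (k + 1) = n + k + 1 := rfl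
    rw [h2, pow_succ]
    linarith

lemma κ_le (n : ℕ) : (seq n).par.κ ≤ (seq n).par.D := by
  have h1 := (seq n).par.len_le (j := 0) (Nat.zero_le _)
  have h2 := (seq n).par.r_le
  have h3 := (seq n).par.hD0
  simp only [pow_zero, mul_one] at h1
  linarith

lemma D_succ_le (n : ℕ) : 8 * (seq (n + 1)).par.D ≤ 8 * (seq n).par.D := by
  have h1 := (seq (n + 1)).par_D
  have h2 := η_succ_le' n
  have h3 := κ_le n
  have h4 := (seq n).par.hD0
  linarith

lemma D_antitone {n k : ℕ} (h : n ≤ k) : 8 * (seq k).par.D ≤ 8 * (seq n).par.D := by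
  induction k, h using Nat.le_induction with
  | base => exact le_rfl
  | succ k _ ih => exact (D_succ_le k).trans ih

lemma exists_D_le {h : ℝ} (hh : 0 < h) : ∃ n, 8 * (seq n).par.D ≤ h := by
  obtain ⟨n, hn⟩ := exists_pow_lt_of_lt_one hh (by norm_num : (1 / 2 : ℝ) < 1)
  refine ⟨n, ?_⟩
  have h1 := (seq n).par_D
  have h2 := η_add_le 0 n
  rw [zero_add] at h2
  have h3 : (seq 0).η = 1 := rfl
  rw [h3, one_mul] at h2
  linarith

/-- the sets changed at step `n` or later -/
noncomputable def Un (n : ℕ) : Set ℝ := ⋃ k : ℕ, En (n + k)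

lemma volume_Un_le (n : ℕ) : volume (Un n) ≤ ENNReal.ofReal (2 * (seq n).η) := by
  have h1 : ∀ k, volume (En (n + k)) ≤ ENNReal.ofReal ((seq n).η * (1 / 2) ^ k) := by
    intro k
    have h2 := (seq (n + k)).par.measureReal_E_le
    have h3 := (seq (n + k)).par_κ
    have h4 := η_add_le n k
    have h5 : volume (En (n + k)) ≠ ⊤ := by
      unfold En Par.E
      apply ne_of_lt
      apply (measure_biUnion_finset_le _ _).trans_lt
      apply ENNReal.sum_lt_top.mpr
      intro i _
      exact measure_Ico_lt_top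
    rw [← ENNReal.ofReal_toReal h5]
    apply ENNReal.ofReal_le_ofReal
    exact (h2.trans h3).trans h4
  have h0 := (seq n).hη
  calc volume (Un n) ≤ ∑' k, volume (En (n + k)) := measure_iUnion_le _
    _ ≤ ∑' k, ENNReal.ofReal ((seq n).η * (1 / 2) ^ k) := ENNReal.tsum_le_tsum h1
    _ = ENNReal.ofReal (∑' k : ℕ, (seq n).η * (1 / 2) ^ k) := by
        rw [ENNReal.ofReal_tsum_of_nonneg]
        · intro k
          positivity
        · exact (summable_geometric_of_lt_one (by norm_num) (by norm_num)).mul_left _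
    _ = ENNReal.ofReal (2 * (seq n).η) := by
        rw [tsum_mul_left, tsum_geometric_of_lt_one (by norm_num) (by norm_num)]
        congr 1
        norm_num
        ring

/-- the final sets -/
noncomputable def T (Y : Fin 3) : Set ℝ := ⋃ N : ℕ, ⋂ n : ℕ, τn (N + n) ⁻¹' {Y}

lemma measurableSet_T (Y : Fin 3) : MeasurableSet (T Y) := by
  unfold T
  apply MeasurableSet.iUnion
  intro N
  apply MeasurableSet.iInter
  intro n
  exact (seq (N + n)).meas (measurableSet_singleton Y)

lemma τn_eq {n : ℕ} {y : ℝ} (hy : y ∉ Un n) (k : ℕ) : τn (n + k) y = τn n y := by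
  induction k with
  | zero => rfl
  | succ k ih =>
    have h1 : n + (k + 1) = n + k + 1 := rfl
    rw [h1, τn_succ, Par.newτ_not_mem, ih]
    intro hE
    exact hy (mem_iUnion.mpr ⟨k, hE⟩)

lemma mem_T_iff {n : ℕ} {y : ℝ} (hy : y ∉ Un n) (Y : Fin 3) : y ∈ T Y ↔ τn n y = Y := by
  unfold T
  simp only [mem_iUnion, mem_iInter, mem_preimage, mem_singleton_iff]
  constructor
  · rintro ⟨N, hN⟩
    have h1 := hN n
    rw [add_comm, τn_eq hy] at h1
    exact h1
  · intro h
    exact ⟨n, fun k => by rw [τn_eq hy, h]⟩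

/-- final content -/
noncomputable def fc (Y : Fin 3) (x h : ℝ) : ℝ := volume.real (Ico x (x + h) ∩ T Y)

lemma abs_fc_sub (n : ℕ) (Y : Fin 3) (x h : ℝ) :
    |fc Y x h - cont (τn n) Y x h| ≤ 2 * (seq n).η := by
  have h0 := (seq n).hη
  have hU : volume.real (Un n) ≤ 2 * (seq n).η := by
    apply ENNReal.toReal_le_of_le_ofReal (by positivity) (volume_Un_le n)
  have hUfin : volume (Un n) ≠ ⊤ := ((volume_Un_le n).trans_lt ENNReal.ofReal_lt_top).ne
  have hI : volume (Ico x (x + h)) ≠ ⊤ := measure_Ico_lt_top.ne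
  have h1 : Ico x (x + h) ∩ T Y ⊆ (Ico x (x + h) ∩ τn n ⁻¹' {Y}) ∪ Un n := by
    intro y hy
    by_cases hyU : y ∈ Un n
    · exact Or.inr hyU
    · exact Or.inl ⟨hy.1, (mem_T_iff hyU Y).mp hy.2⟩
  have h2 : Ico x (x + h) ∩ τn n ⁻¹' {Y} ⊆ (Ico x (x + h) ∩ T Y) ∪ Un n := by
    intro y hy
    by_cases hyU : y ∈ Un n
    · exact Or.inr hyU
    · exact Or.inl ⟨hy.1, (mem_T_iff hyU Y).mpr hy.2⟩
  have hf : ∀ A : Set ℝ, volume ((Ico x (x + h) ∩ A) ∪ Un n) ≠ ⊤ := by
    intro A
    apply ne_of_lt
    apply (measure_union_le _ _).trans_lt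
    exact ENNReal.add_lt_top.mpr ⟨(measure_mono inter_subset_left).trans_lt measure_Ico_lt_top,
      lt_top_iff_ne_top.mpr hUfin⟩
  have h3 : fc Y x h ≤ cont (τn n) Y x h + volume.real (Un n) :=
    (measureReal_mono h1 (hf _)).trans (measureReal_union_le _ _)
  have h4 : cont (τn n) Y x h ≤ fc Y x h + volume.real (Un n) :=
    (measureReal_mono h2 (hf _)).trans (measureReal_union_le _ _)
  rw [abs_le]
  constructor <;> linarith

lemma exists_col (n : ℕ) (X : Fin 3) : ∃ k, k < 3 ∧ col (n + k) = X ∧ ∀ i < k, col (n + i) ≠ X := by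
  have h : ∃ k, k < 3 ∧ col (n + k) = X := by
    have h1 : ∀ k, col (n + k) = col n + Fin.ofNat 3 k := by
      intro k
      unfold col
      ext
      simp [Fin.ofNat, Fin.val_add]
    simp only [h1]
    generalize col n = a
    revert a X
    decide
  classical
  obtain ⟨h1, h2⟩ := Nat.find_spec h
  refine ⟨Nat.find h, h1, h2, ?_⟩
  intro i hi h3
  exact Nat.find_min h hi ⟨hi.trans h1, h3⟩

lemma cont_eq_zero_of_col {n : ℕ} {X : Fin 3} {x h : ℝ} (h0 : cont (τn n) X x h = 0)
    (k : ℕ) (hk : ∀ i < k, col (n + i) ≠ X) : cont (τn (n + k)) X x h = 0 := by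
  induction k with
  | zero => exact h0
  | succ k ih =>
    have h1 := ih (fun i hi => hk i (hi.trans (Nat.lt_succ_self k)))
    refine le_antisymm ?_ (cont_nonneg _ _ _ _)
    rw [← h1]
    unfold cont
    apply measureReal_mono
    · intro y hy
      refine ⟨hy.1, ?_⟩
      have h2 : n + (k + 1) = n + k + 1 := rfl
      have h3 := hy.2
      rw [h2, τn_succ] at h3
      exact ((seq (n + k)).par.eq_of_newτ h3 (hk k (Nat.lt_succ_self k)).symm).2
    · exact ((measure_mono inter_subset_left).trans_lt measure_Ico_lt_top).ne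

/-- **Core theorem**: non-overlapping windows in `[0,1]` of equal length are distinguished. -/
theorem core {x x' h : ℝ} (hx : 0 ≤ x) (hh : 0 < h) (hxx : x + h ≤ x') (hx' : x' + h ≤ 1) :
    ∃ Y, fc Y x h ≠ fc Y x' h := by
  classical
  have hex := exists_D_le hh
  set n := Nat.find hex with hn
  have hn1 : 8 * (seq n).par.D ≤ h := Nat.find_spec hex
  by_cases hX : ∃ X, cont (τn n) X x h = 0
  · obtain ⟨X, hX⟩ := hX
    obtain ⟨k, _, hk, hk'⟩ := exists_col n X
    have h1 := cont_eq_zero_of_col hX k hk'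
    have h2 : 8 * (seq (n + k)).par.D ≤ h := (D_antitone (Nat.le_add_right n k)).trans hn1
    have h3 := (seq (n + k)).par.long (τ := τn (n + k)) (X := X) hx h2 hxx hx' h1
    rw [← hk, ← τn_succ, hk] at h3
    refine ⟨X, ?_⟩
    intro heq
    have h4 := abs_le.mp (abs_fc_sub (n + k + 1) X x h)
    have h5 := abs_le.mp (abs_fc_sub (n + k + 1) X x' h)
    have h6 := η_succ_le' (n + k)
    have h7 := (seq (n + k)).par.hκ0
    linarith [h4.1, h4.2, h5.1, h5.2]
  · push Not at hX
    have hpos : ∀ Y, 0 < cont (τn n) Y x h := fun Y =>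
      lt_of_le_of_ne (cont_nonneg _ _ _ _) (hX Y).symm
    obtain ⟨p, hp⟩ : ∃ p, n = p + 1 := by
      rcases Nat.eq_zero_or_pos n with h0 | h0
      · exfalso
        have h1 := hpos 1
        obtain ⟨y, _, _, hy⟩ := exists_of_cont_pos h1
        rw [h0] at hy
        exact absurd hy (by simp [τn, seq])
      · exact ⟨n - 1, by omega⟩
    have h1 : h < 8 * (seq p).par.D := by
      have := Nat.find_min hex (m := p) (by omega)
      exact not_le.mp this
    rw [hp, τn_succ] at hpos
    obtain ⟨Y, hY⟩ := (seq p).par.short (by rw [(seq p).par_S]; exact (seq p).step) hx h1 hxx hx'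
      hpos
    rw [← τn_succ] at hY
    refine ⟨Y, ?_⟩
    intro heq
    have h4 := abs_le.mp (abs_fc_sub (p + 1) Y x h)
    have h5 := abs_le.mp (abs_fc_sub (p + 1) Y x' h)
    have h6 := η_succ_le' p
    have h7 := (seq p).par.hκ0
    have h8 : |cont (τn (p + 1)) Y x h - cont (τn (p + 1)) Y x' h| ≤ (seq p).par.κ / 2 := by
      rw [abs_le]
      constructor <;> linarith [h4.1, h4.2, h5.1, h5.2]
    linarith

/-- the final sets cover almost everything -/
lemma volume_compl_T : volume (⋃ Y, T Y)ᶜ = 0 := by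
  have h1 : ∀ n, (⋃ Y, T Y)ᶜ ⊆ Un n := by
    intro n y hy
    by_contra hU
    apply hy
    exact mem_iUnion.mpr ⟨τn n y, (mem_T_iff hU _).mpr rfl⟩
  have h2 : ∀ n : ℕ, volume (⋃ Y, T Y)ᶜ ≤ ENNReal.ofReal (2 * (1 / 2) ^ n) := by
    intro n
    have h3 := η_add_le 0 n
    rw [zero_add] at h3
    have h4 : (seq 0).η = 1 := rfl
    rw [h4, one_mul] at h3
    exact (measure_mono (h1 n)).trans ((volume_Un_le n).trans
      (ENNReal.ofReal_le_ofReal (by linarith)))
  have h3 : Filter.Tendsto (fun n : ℕ => ENNReal.ofReal (2 * (1 / 2 : ℝ) ^ n)) Filter.atTop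
      (nhds (ENNReal.ofReal 0)) := by
    apply ENNReal.tendsto_ofReal
    have := (tendsto_pow_atTop_nhds_zero_of_lt_one (r := (1 / 2 : ℝ)) (by norm_num)
      (by norm_num)).const_mul 2
    simpa using this
  rw [ENNReal.ofReal_zero] at h3
  exact nonpos_iff_eq_zero.mp (ge_of_tendsto' h3 h2)

lemma T_disjoint {Y Z : Fin 3} (h : Y ≠ Z) : Disjoint (T Y) (T Z) := by
  rw [Set.disjoint_left]
  intro y hY hZ
  unfold T at hY hZ
  simp only [mem_iUnion, mem_iInter, mem_preimage, mem_singleton_iff] at hY hZ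
  obtain ⟨N, hN⟩ := hY
  obtain ⟨M, hM⟩ := hZ
  apply h
  rw [← hN M, ← hM N, add_comm]

/-- primitive of the indicator function of `T Y` -/
noncomputable def G (Y : Fin 3) (t : ℝ) : ℝ := volume.real (Ico 0 t ∩ T Y)

lemma fc_eq {Y : Fin 3} {x h : ℝ} (hx : 0 ≤ x) (hh : 0 ≤ h) : fc Y x h = G Y (x + h) - G Y x := by
  have h1 : Ico 0 (x + h) ∩ T Y = (Ico 0 x ∩ T Y) ∪ (Ico x (x + h) ∩ T Y) := by
    rw [← union_inter_distrib_right, Ico_union_Ico_eq_Ico hx (by linarith)]
  have h2 : Disjoint (Ico 0 x ∩ T Y) (Ico x (x + h) ∩ T Y) := by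
    apply Disjoint.mono inter_subset_left inter_subset_left
    exact Ico_disjoint_Ico_same
  unfold G fc
  rw [h1, measureReal_union h2 (measurableSet_Ico.inter (measurableSet_T Y))
    ((measure_mono inter_subset_left).trans_lt measure_Ico_lt_top).ne
    ((measure_mono inter_subset_left).trans_lt measure_Ico_lt_top).ne]
  ring

lemma sum_fc {x h : ℝ} (hh : 0 ≤ h) : ∑ Y, fc Y x h = h := by
  have h1 : volume.real (⋃ Y, Ico x (x + h) ∩ T Y) = ∑ Y, fc Y x h := by
    unfold fc
    apply measureReal_iUnion_fintype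
    · intro Y Z hYZ
      exact Disjoint.mono inter_subset_right inter_subset_right (T_disjoint hYZ)
    · intro Y
      exact measurableSet_Ico.inter (measurableSet_T Y)
    · intro Y
      exact ((measure_mono inter_subset_left).trans_lt measure_Ico_lt_top).ne
  rw [← h1, ← inter_iUnion]
  have h2 : volume (Ico x (x + h) ∩ ⋃ Y, T Y) = volume (Ico x (x + h)) := by
    apply measure_inter_conull
    exact volume_compl_T
  rw [Measure.real, h2, Real.volume_Ico, ENNReal.toReal_ofReal (by linarith)]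
  ring

/-- Increments of the curve `G` determine the interval. -/
theorem G_inj {a b c d : ℝ} (ha : 0 ≤ a) (hab : a < b) (hb : b ≤ 1) (hc : 0 ≤ c) (hcd : c < d)
    (hd : d ≤ 1) (h : ∀ Y, G Y b - G Y a = G Y d - G Y c) : a = c ∧ b = d := by
  have hf : ∀ Y, fc Y a (b - a) = fc Y c (d - c) := by
    intro Y
    rw [fc_eq ha (by linarith), fc_eq hc (by linarith)]
    have h1 : a + (b - a) = b := by ring
    have h2 : c + (d - c) = d := by ring
    rw [h1, h2, h Y]
  have hlen : b - a = d - c := by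
    rw [← sum_fc (x := a) (h := b - a) (by linarith), ← sum_fc (x := c) (h := d - c) (by linarith)]
    exact Finset.sum_congr rfl (fun Y _ => hf Y)
  -- reduce to `a ≤ c`
  wlog hac : a ≤ c generalizing a b c d
  · have := this hc hcd hd ha hab hb (fun Y => (h Y).symm) (fun Y => (hf Y).symm) hlen.symm
      (le_of_not_ge hac)
    exact ⟨this.1.symm, this.2.symm⟩
  rcases hac.eq_or_lt with heq | hlt
  · exact ⟨heq, by linarith⟩
  exfalso
  rcases le_or_gt b c with hbc | hbc
  · -- disjoint
    obtain ⟨Y, hY⟩ := core (x := a) (x' := c) (h := b - a) ha (by linarith) (by linarith)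
      (by linarith)
    apply hY
    rw [hf Y, hlen]
  · obtain ⟨Y, hY⟩ := core (x := a) (x' := b) (h := c - a) ha (by linarith) (by linarith)
      (by linarith)
    apply hY
    rw [fc_eq ha (by linarith), fc_eq (by linarith) (by linarith)]
    have h1 : a + (c - a) = c := by ring
    have h2 : b + (c - a) = d := by linarith
    rw [h1, h2]
    linarith [h Y]

end Pool.Agent.H20.Rec
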