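import Mathlib

set_option autoImplicit false

/-!
The one-step extension lemma used for MP_91bf7f_an: given a step colouring `τ` of the line with
three colours, one adds very small blocks of one colour such that all short pairs of windows which
see all three colours, and all long pairs of windows such that the left one misses the new colour,
are distinguished.
-/

namespace Pool.Agent.H20.Rec

open MeasureTheory Set

/-- content of colour `Y` in the window `[x, x+h)` -/
noncomputable def cont (τ : ℝ → Fin 3) (Y : Fin 3) (x h : ℝ) : ℝ :=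
  volume.real (Ico x (x + h) ∩ τ ⁻¹' {Y})

/-- `τ` is constant between consecutive points of `S`, and jumps at every point of `S` -/
structure IsStep (S : Finset ℝ) (τ : ℝ → Fin 3) : Prop where
  const : ∀ x y, x ≤ y → (∀ e ∈ S, ¬ (x < e ∧ e ≤ y)) → τ x = τ y
  jump : ∀ e ∈ S, ∀ x < e, ∃ y, x < y ∧ y < e ∧ τ y ≠ τ e

lemma exists_gap (S : Finset ℝ) : ∃ m : ℝ, 0 < m ∧ m ≤ 1 ∧ ∀ e ∈ S, ∀ e' ∈ S, e ≠ e' →
    m ≤ |e - e'| := by
  classical
  induction S using Finset.induction_on with
  | empty => exact ⟨1, one_pos, le_rfl, by simp⟩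
  | insert a S ha ih =>
    obtain ⟨m, hm0, hm1, hm⟩ := ih
    obtain ⟨m', hm'0, hm'⟩ : ∃ m' : ℝ, 0 < m' ∧ ∀ e ∈ S, m' ≤ |e - a| := by
      rcases S.eq_empty_or_nonempty with h | h
      · exact ⟨1, one_pos, by simp [h]⟩
      · obtain ⟨b, hb, hmin⟩ := S.exists_min_image (fun e => |e - a|) h
        refine ⟨|b - a|, abs_pos.mpr (sub_ne_zero.mpr ?_), hmin⟩
        rintro rfl
        exact ha hb
    refine ⟨min m m', lt_min hm0 hm'0, (min_le_left _ _).trans hm1, ?_⟩
    intro e he e' he' hne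
    rcases Finset.mem_insert.mp he with h1 | h1
    · rcases Finset.mem_insert.mp he' with h2 | h2
      · exact absurd (h1.trans h2.symm) hne
      · rw [abs_sub_comm, h1]
        exact (min_le_right _ _).trans (hm' e' h2)
    · rcases Finset.mem_insert.mp he' with h2 | h2
      · rw [h2]
        exact (min_le_right _ _).trans (hm' e h1)
      · exact (min_le_left _ _).trans (hm e h1 e' h2 hne)

/-- parameters of the construction -/
structure Par where
  S : Finset ℝ
  m : ℝ
  D : ℝ
  r : ℝ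
  κ : ℝ
  N : ℕ
  hS : ∀ e ∈ S, 0 ≤ e ∧ e ≤ 1
  hm0 : 0 < m
  hm1 : m ≤ 1
  hgap : ∀ e ∈ S, ∀ e' ∈ S, e ≠ e' → m ≤ |e - e'|
  hD0 : 0 < D
  hD : 100 * D ≤ m
  hr0 : 0 < r
  hr : 100 * r ≤ D * m
  hN : N * r = 1
  hκ0 : 0 < κ
  hκ : κ * 2 ^ N ≤ r

namespace Par

variable (P : Par)

/-- radius of the block-free zone around `e` -/
def d (e : ℝ) : ℝ := P.D * (2 - e)

open Classical in
/-- indices of the cells which carry a block -/
noncomputable def J : Finset ℕ :=
  (Finset.range P.N).filter (fun j => ∀ e ∈ P.S, P.d e + P.r ≤ |j * P.r - e|)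

/-- the block in the cell `j` -/
def block (j : ℕ) : Set ℝ := Ico (j * P.r) (j * P.r + P.κ * 2 ^ j)

/-- the union of all blocks -/
def E : Set ℝ := ⋃ j ∈ P.J, P.block j

lemma mem_J {j : ℕ} : j ∈ P.J ↔ j < P.N ∧ ∀ e ∈ P.S, P.d e + P.r ≤ |j * P.r - e| := by
  classical
  unfold J
  simp

lemma mem_E {y : ℝ} : y ∈ P.E ↔ ∃ j ∈ P.J, j * P.r ≤ y ∧ y < j * P.r + P.κ * 2 ^ j := by
  simp only [E, block, mem_iUnion, mem_Ico, exists_prop]

lemma measurableSet_E : MeasurableSet P.E := by
  unfold E block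
  exact Finset.measurableSet_biUnion _ (fun j _ => measurableSet_Ico)

lemma len_le {j : ℕ} (hj : j ≤ P.N) : P.κ * 2 ^ j ≤ P.r :=
  le_trans (mul_le_mul_of_nonneg_left (pow_le_pow_right₀ one_le_two hj) P.hκ0.le) P.hκ

lemma len_pos (j : ℕ) : 0 < P.κ * 2 ^ j := by
  have := P.hκ0
  positivity

lemma cell_le_one {j : ℕ} (hj : j < P.N) : (j + 1) * P.r ≤ 1 := by
  have h1 : ((j : ℝ) + 1) ≤ P.N := by exact_mod_cast hj
  calc ((j : ℝ) + 1) * P.r ≤ P.N * P.r := mul_le_mul_of_nonneg_right h1 P.hr0.le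
    _ = 1 := P.hN

lemma lt_N_of_cell {j : ℕ} (hj : (j + 1) * P.r ≤ 1) : j < P.N := by
  have h1 := P.hN
  have h2 : ((j : ℝ) + 1) * P.r ≤ P.N * P.r := by rw [h1]; exact hj
  have h3 : ((j : ℝ) + 1) ≤ P.N := le_of_mul_le_mul_right h2 P.hr0
  exact_mod_cast h3

lemma d_le {e : ℝ} (he : e ∈ P.S) : P.d e ≤ 2 * P.D := by
  have h1 := (P.hS e he).1
  have h2 := P.hD0
  unfold d
  nlinarith

lemma le_d {e : ℝ} (he : e ∈ P.S) : P.D ≤ P.d e := by
  have h1 := (P.hS e he).2
  have h2 := P.hD0
  unfold d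
  nlinarith

lemma d_sub {e e' : ℝ} (he : e ∈ P.S) (he' : e' ∈ P.S) (h : e < e') :
    P.d e' + P.D * P.m ≤ P.d e := by
  have h1 := P.hgap e he e' he' h.ne
  rw [abs_sub_comm, abs_of_pos (by linarith : (0 : ℝ) < e' - e)] at h1
  have h2 := P.hD0
  unfold d
  nlinarith

lemma r_le : 100 * P.r ≤ P.D := by
  have h1 := P.hr
  have h2 := P.hm1
  have h3 := P.hD0
  nlinarith

/-- a point of a block is outside all the zones -/
lemma zone {y e : ℝ} (hy : y ∈ P.E) (he : e ∈ P.S) : P.d e < |y - e| := by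
  rw [mem_E] at hy
  obtain ⟨j, hj, h1, h2⟩ := hy
  rw [mem_J] at hj
  have h3 := hj.2 e he
  have h4 := P.len_le hj.1.le
  have h5 : |(j : ℝ) * P.r - e| < |y - e| + P.r := by
    have : |(j : ℝ) * P.r - y| < P.r := by
      rw [abs_lt]
      constructor <;> linarith [P.hr0]
    calc |(j : ℝ) * P.r - e| = |((j : ℝ) * P.r - y) + (y - e)| := by ring_nf
      _ ≤ |(j : ℝ) * P.r - y| + |y - e| := abs_add_le _ _
      _ < |y - e| + P.r := by linarith
  linarith

/-- index of a cell which starts in `[u, u+r)` -/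
lemma exists_cell {u : ℝ} (hu : 0 ≤ u) : ∃ j : ℕ, u ≤ j * P.r ∧ j * P.r < u + P.r := by
  refine ⟨⌈u / P.r⌉₊, ?_, ?_⟩
  · have h1 := Nat.le_ceil (u / P.r)
    rwa [div_le_iff₀ P.hr0] at h1
  · have h1 := Nat.ceil_lt_add_one (div_nonneg hu P.hr0.le)
    have h2 := mul_lt_mul_of_pos_right h1 P.hr0
    rw [add_mul, div_mul_cancel₀ _ P.hr0.ne', one_mul] at h2
    exact h2

/-- a cell which is not in `J` is close to some `e ∈ S` -/
lemma close {j : ℕ} (hj : (j + 1) * P.r ≤ 1) (h : j ∉ P.J) :
    ∃ e ∈ P.S, |j * P.r - e| < P.d e + P.r := by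
  rw [mem_J] at h
  push Not at h
  exact h (P.lt_N_of_cell hj)

lemma eq_of_close {e e' : ℝ} (he : e ∈ P.S) (he' : e' ∈ P.S) (h : |e - e'| < P.m) : e = e' := by
  by_contra hne
  exact absurd (P.hgap e he e' he' hne) (not_le.mpr h)

/-- long windows contain a full cell carrying a block -/
lemma full_cell {x h : ℝ} (hx : 0 ≤ x) (hxh : x + h ≤ 1) (hh : 8 * P.D ≤ h) :
    ∃ j ∈ P.J, x ≤ j * P.r ∧ (j + 1) * P.r ≤ x + h := by
  have hD0 := P.hD0
  have hr := P.r_le
  have hr0 := P.hr0
  have hDm := P.hD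
  obtain ⟨a, ha1, ha2⟩ := P.exists_cell hx
  obtain ⟨b, hb1, hb2⟩ := P.exists_cell (u := x + 6 * P.D) (by linarith)
  have ha3 : (a + 1) * P.r ≤ x + h := by linarith
  have hb3 : (b + 1) * P.r ≤ x + h := by linarith
  by_cases haJ : a ∈ P.J
  · exact ⟨a, haJ, ha1, ha3⟩
  by_cases hbJ : b ∈ P.J
  · exact ⟨b, hbJ, by linarith, hb3⟩
  exfalso
  obtain ⟨e, he, h1⟩ := P.close (by linarith) haJ
  obtain ⟨e', he', h2⟩ := P.close (by linarith) hbJ
  have h3 := P.d_le he
  have h4 := P.d_le he'
  rw [abs_lt] at h1 h2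
  have h5 : e = e' := by
    apply P.eq_of_close he he'
    rw [abs_lt]
    constructor <;> linarith
  subst h5
  linarith

/-- short windows not containing a full cell carrying a block are inside a zone -/
lemma no_full_cell {x h : ℝ} (hx : 0 ≤ x) (hxh : x + h ≤ 1) (hh : P.D ≤ h) (hh' : h < 8 * P.D)
    (hno : ∀ j ∈ P.J, x ≤ j * P.r → ¬ ((j + 1) * P.r ≤ x + h)) :
    ∃ e ∈ P.S, e - P.d e - 2 * P.r < x ∧ x + h < e + P.d e + 3 * P.r := by
  have hD0 := P.hD0
  have hr := P.r_le
  have hr0 := P.hr0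
  have hDm := P.hD
  obtain ⟨a, ha1, ha2⟩ := P.exists_cell hx
  obtain ⟨b, hb1, hb2⟩ := P.exists_cell (u := x + h - 2 * P.r) (by linarith)
  have ha3 : (a + 1) * P.r ≤ x + h := by linarith
  have hb3 : (b + 1) * P.r ≤ x + h := by linarith
  have haJ : a ∉ P.J := fun h => hno a h ha1 ha3
  have hbJ : b ∉ P.J := fun h => hno b h (by linarith) hb3
  obtain ⟨e, he, h1⟩ := P.close (by linarith) haJ
  obtain ⟨e', he', h2⟩ := P.close (by linarith) hbJ
  have h3 := P.d_le he
  have h4 := P.d_le he'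
  rw [abs_lt] at h1 h2
  have h5 : e = e' := by
    apply P.eq_of_close he he'
    rw [abs_lt]
    constructor <;> linarith
  subst h5
  exact ⟨e, he, by linarith, by linarith⟩

/-- the new colouring -/
noncomputable def newτ (τ : ℝ → Fin 3) (X : Fin 3) : ℝ → Fin 3 :=
  open Classical in P.E.piecewise (fun _ => X) τ

lemma newτ_mem {τ : ℝ → Fin 3} {X : Fin 3} {y : ℝ} (hy : y ∈ P.E) : P.newτ τ X y = X := by
  classical
  simp [newτ, hy]

lemma newτ_not_mem {τ : ℝ → Fin 3} {X : Fin 3} {y : ℝ} (hy : y ∉ P.E) :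
    P.newτ τ X y = τ y := by
  classical
  simp [newτ, hy]

lemma measurable_newτ {τ : ℝ → Fin 3} (hτ : Measurable τ) (X : Fin 3) :
    Measurable (P.newτ τ X) := by
  classical
  exact Measurable.piecewise P.measurableSet_E measurable_const hτ

lemma block_subset {j : ℕ} (hj : j ∈ P.J) : P.block j ⊆ P.E := by
  intro y hy
  exact Set.mem_biUnion hj hy

lemma measureReal_block (j : ℕ) : volume.real (P.block j) = P.κ * 2 ^ j := by
  unfold block
  rw [Measure.real, Real.volume_Ico, ENNReal.toReal_ofReal (by linarith [P.len_pos j])]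
  ring

/-- a window containing a full cell of `J` has large content of the new colour -/
lemma le_cont {τ : ℝ → Fin 3} {X : Fin 3} {x h : ℝ} {j : ℕ} (hj : j ∈ P.J) (h1 : x ≤ j * P.r)
    (h2 : (j + 1) * P.r ≤ x + h) : P.κ * 2 ^ j ≤ cont (P.newτ τ X) X x h := by
  rw [← P.measureReal_block j]
  unfold cont
  apply measureReal_mono
  · intro y hy
    refine ⟨⟨?_, ?_⟩, ?_⟩
    · exact h1.trans hy.1
    · have h3 := hy.2
      have h4 := P.len_le ((P.mem_J.mp hj).1.le)
      linarith
    · exact P.newτ_mem (P.block_subset hj hy)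
  · exact ((measure_mono inter_subset_left).trans_lt measure_Ico_lt_top).ne

/-- a window to the left of the cell `j`, without old colour `X`, has small content of colour
`X` -/
lemma cont_le {τ : ℝ → Fin 3} {X : Fin 3} {x h : ℝ} {j : ℕ} (h1 : x + h ≤ j * P.r)
    (h2 : cont τ X x h = 0) : cont (P.newτ τ X) X x h ≤ P.κ * 2 ^ j - P.κ := by
  have h3 : Ico x (x + h) ∩ (P.newτ τ X) ⁻¹' {X} ⊆
      (Ico x (x + h) ∩ τ ⁻¹' {X}) ∪ ⋃ i ∈ Finset.range j, P.block i := by
    intro y hy
    by_cases hyE : y ∈ P.E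
    · right
      rw [mem_E] at hyE
      obtain ⟨i, hi, h4, h5⟩ := hyE
      have h6 : i < j := by
        have h7 : (i : ℝ) * P.r < j * P.r := lt_of_le_of_lt h4 (lt_of_lt_of_le hy.1.2 h1)
        have h8 := lt_of_mul_lt_mul_right h7 P.hr0.le
        exact_mod_cast h8
      exact Set.mem_biUnion (Finset.mem_coe.mpr (Finset.mem_range.mpr h6)) ⟨h4, h5⟩
    · left
      refine ⟨hy.1, ?_⟩
      have h4 := hy.2
      rw [mem_preimage, P.newτ_not_mem hyE] at h4
      exact h4
  have hfin : volume ((Ico x (x + h) ∩ τ ⁻¹' {X}) ∪ ⋃ i ∈ Finset.range j, P.block i) ≠ ⊤ := by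
    apply ne_of_lt
    apply (measure_union_le _ _).trans_lt
    apply ENNReal.add_lt_top.mpr
    refine ⟨(measure_mono inter_subset_left).trans_lt measure_Ico_lt_top, ?_⟩
    apply (measure_biUnion_finset_le _ _).trans_lt
    apply ENNReal.sum_lt_top.mpr
    intro i _
    exact measure_Ico_lt_top
  calc cont (P.newτ τ X) X x h ≤
      volume.real ((Ico x (x + h) ∩ τ ⁻¹' {X}) ∪ ⋃ i ∈ Finset.range j, P.block i) :=
        measureReal_mono h3 hfin
    _ ≤ volume.real (Ico x (x + h) ∩ τ ⁻¹' {X}) +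
        volume.real (⋃ i ∈ Finset.range j, P.block i) := measureReal_union_le _ _
    _ ≤ 0 + ∑ i ∈ Finset.range j, volume.real (P.block i) :=
        add_le_add h2.le (measureReal_biUnion_finset_le _ _)
    _ = P.κ * 2 ^ j - P.κ := by
        simp only [measureReal_block, ← Finset.mul_sum, zero_add]
        have h4 : ∑ i ∈ Finset.range j, (2 : ℝ) ^ i = 2 ^ j - 1 := by
          have := geom_sum_eq (by norm_num : (2 : ℝ) ≠ 1) j
          rw [this]
          norm_num
        rw [h4]
        ring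

/-- P1: long windows -/
lemma long {τ : ℝ → Fin 3} {X : Fin 3} {x x' h : ℝ} (hx : 0 ≤ x) (hh : 8 * P.D ≤ h)
    (hxx : x + h ≤ x') (hx' : x' + h ≤ 1) (h0 : cont τ X x h = 0) :
    cont (P.newτ τ X) X x h + P.κ ≤ cont (P.newτ τ X) X x' h := by
  have hD0 := P.hD0
  obtain ⟨j, hj, h1, h2⟩ := P.full_cell (x := x') (by linarith) hx' hh
  have h3 := P.le_cont (τ := τ) (X := X) hj h1 h2
  have h4 := P.cont_le (τ := τ) (X := X) (x := x) (h := h) (hxx.trans h1) h0
  linarith

end Par

lemma cont_nonneg (τ : ℝ → Fin 3) (Y : Fin 3) (x h : ℝ) : 0 ≤ cont τ Y x h := measureReal_nonneg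

lemma cont_le_of_subset {τ : ℝ → Fin 3} {Y : Fin 3} {x h a b : ℝ} (hab : a ≤ b)
    (hs : ∀ y ∈ Ico x (x + h), τ y = Y → a ≤ y ∧ y < b) : cont τ Y x h ≤ b - a := by
  have h1 : volume.real (Ico a b) = b - a := by
    rw [Measure.real, Real.volume_Ico, ENNReal.toReal_ofReal (by linarith)]
  rw [← h1]
  unfold cont
  apply measureReal_mono
  · intro y hy
    exact hs y hy.1 hy.2
  · exact measure_Ico_lt_top.ne

lemma le_cont_of_subset {τ : ℝ → Fin 3} {Y : Fin 3} {x h a b : ℝ} (hab : a ≤ b)
    (hs : ∀ y, a ≤ y → y < b → x ≤ y ∧ y < x + h ∧ τ y = Y) : b - a ≤ cont τ Y x h := by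
  have h1 : volume.real (Ico a b) = b - a := by
    rw [Measure.real, Real.volume_Ico, ENNReal.toReal_ofReal (by linarith)]
  rw [← h1]
  unfold cont
  apply measureReal_mono
  · intro y hy
    obtain ⟨h2, h3, h4⟩ := hs y hy.1 hy.2
    exact ⟨⟨h2, h3⟩, h4⟩
  · exact ((measure_mono inter_subset_left).trans_lt measure_Ico_lt_top).ne

lemma exists_of_cont_pos {τ : ℝ → Fin 3} {Y : Fin 3} {x h : ℝ} (hp : 0 < cont τ Y x h) :
    ∃ y, x ≤ y ∧ y < x + h ∧ τ y = Y := by
  by_contra hcon
  push Not at hcon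
  have : Ico x (x + h) ∩ τ ⁻¹' {Y} = ∅ := by
    ext y
    simp only [mem_inter_iff, mem_Ico, mem_preimage, mem_singleton_iff, mem_empty_iff_false,
      iff_false, not_and]
    intro hy
    exact hcon y hy.1 hy.2
  unfold cont at hp
  rw [this] at hp
  simp at hp

lemma Par.const_left (P : Par) {τ : ℝ → Fin 3} (hτ : IsStep P.S τ) {e y z : ℝ} (he : e ∈ P.S)
    (hy : e - P.m < y) (hyz : y ≤ z) (hz : z < e) : τ y = τ z := by
  apply hτ.const _ _ hyz
  rintro e' he' ⟨h3, h4⟩
  have := P.eq_of_close he' he (by rw [abs_lt]; constructor <;> linarith [P.hm0])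
  linarith

lemma Par.const_right (P : Par) {τ : ℝ → Fin 3} (hτ : IsStep P.S τ) {e y : ℝ} (he : e ∈ P.S)
    (hy : e ≤ y) (hy' : y < e + P.m) : τ y = τ e := by
  symm
  apply hτ.const _ _ hy
  rintro e' he' ⟨h3, h4⟩
  have := P.eq_of_close he' he (by rw [abs_lt]; constructor <;> linarith [P.hm0])
  linarith

lemma Par.jump_ne (P : Par) {τ : ℝ → Fin 3} (hτ : IsStep P.S τ) {e y z : ℝ} (he : e ∈ P.S)
    (hy : e - P.m < y) (hy' : y < e) (hz : e ≤ z) (hz' : z < e + P.m) : τ y ≠ τ z := by
  obtain ⟨w, hw1, hw2, hw3⟩ := hτ.jump e he y hy'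
  rw [P.const_left hτ he hy hw1.le hw2, P.const_right hτ he hz hz']
  exact hw3

lemma Par.eq_of_newτ (P : Par) {τ : ℝ → Fin 3} {X Y : Fin 3} {y : ℝ} (h : P.newτ τ X y = Y)
    (hY : Y ≠ X) : y ∉ P.E ∧ τ y = Y := by
  by_cases hE : y ∈ P.E
  · rw [P.newτ_mem hE] at h
    exact absurd h.symm hY
  · rw [P.newτ_not_mem hE] at h
    exact ⟨hE, h⟩

lemma exists_two (X : Fin 3) : ∃ Y1 Y2 : Fin 3, Y1 ≠ X ∧ Y2 ≠ X ∧ Y1 ≠ Y2 := by
  revert X
  decide

lemma three_aux (X Y1 Y2 A B : Fin 3) (h1X : Y1 ≠ X) (h2X : Y2 ≠ X) (h12 : Y1 ≠ Y2)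
    (h1 : Y1 = A ∨ Y1 = B) (h2 : Y2 = A ∨ Y2 = B) : A ≠ X ∧ B ≠ X ∧ A ≠ B := by
  revert X Y1 Y2 A B
  decide

/-- P2: short windows -/
lemma Par.short (P : Par) {τ : ℝ → Fin 3} (hτ : IsStep P.S τ) {X : Fin 3} {x x' h : ℝ}
    (hx : 0 ≤ x) (hh : h < 8 * P.D) (hxx : x + h ≤ x') (hx' : x' + h ≤ 1)
    (hpos : ∀ Y, 0 < cont (P.newτ τ X) Y x h) :
    ∃ Y, P.κ ≤ |cont (P.newτ τ X) Y x h - cont (P.newτ τ X) Y x' h| := by
  have hD0 := P.hD0
  have hr := P.r_le
  have hr0 := P.hr0
  have hDm := P.hD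
  have hr2 := P.hr
  have hκ : P.κ ≤ P.r := by
    have := P.len_le (j := 0) (Nat.zero_le _)
    simpa using this
  -- points with values different from `X` and from each other
  obtain ⟨Y1, Y2, h1X, h2X, h12⟩ := exists_two X
  obtain ⟨e, he, hex, hexh⟩ : ∃ e ∈ P.S, x < e ∧ e < x + h := by
    obtain ⟨y1, ha1, hb1, hc1⟩ := exists_of_cont_pos (hpos Y1)
    obtain ⟨y2, ha2, hb2, hc2⟩ := exists_of_cont_pos (hpos Y2)
    have hd1 := (P.eq_of_newτ hc1 h1X).2
    have hd2 := (P.eq_of_newτ hc2 h2X).2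
    by_contra hcon
    push Not at hcon
    rcases le_total y1 y2 with h12' | h12'
    · apply h12
      rw [← hd1, ← hd2]
      apply hτ.const _ _ h12'
      rintro e he ⟨h3, h4⟩
      linarith [hcon e he (by linarith)]
    · apply h12
      rw [← hd1, ← hd2]
      symm
      apply hτ.const _ _ h12'
      rintro e he ⟨h3, h4⟩
      linarith [hcon e he (by linarith)]
  have hleft : ∀ y, x ≤ y → y < e → τ y = τ x := by
    intro y hy1 hy2
    exact (P.const_left hτ he (by linarith) hy1 hy2).symm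
  have hright : ∀ y, e ≤ y → y < e + 8 * P.D → τ y = τ e := by
    intro y hy1 hy2
    exact P.const_right hτ he hy1 (by linarith)
  have hval : ∀ Y, Y ≠ X → Y = τ x ∨ Y = τ e := by
    intro Y hY
    obtain ⟨y, ha, hb, hc⟩ := exists_of_cont_pos (hpos Y)
    have hd := (P.eq_of_newτ hc hY).2
    rcases lt_or_ge y e with h3 | h3
    · left
      rw [← hd]
      exact hleft y ha h3
    · right
      rw [← hd]
      exact hright y h3 (by linarith)
  obtain ⟨hxX, heX, hxe⟩ := three_aux X Y1 Y2 (τ x) (τ e) h1X h2X h12 (hval Y1 h1X) (hval Y2 h2X)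
  -- no old `X` in the first window
  have hnoX : cont τ X x h = 0 := by
    have : Ico x (x + h) ∩ τ ⁻¹' {X} = ∅ := by
      ext y
      simp only [mem_inter_iff, mem_Ico, mem_preimage, mem_singleton_iff, mem_empty_iff_false,
        iff_false, not_and]
      intro hy
      rcases lt_or_ge y e with h3 | h3
      · rw [hleft y hy.1 h3]
        exact hxX
      · rw [hright y h3 (by linarith [hy.2])]
        exact heX
    unfold cont
    rw [this]
    simp
  -- a point of `E` in the first window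
  obtain ⟨z, hz1, hz2, hzE⟩ : ∃ z, x ≤ z ∧ z < x + h ∧ z ∈ P.E := by
    obtain ⟨y, ha, hb, hc⟩ := exists_of_cont_pos (hpos X)
    refine ⟨y, ha, hb, ?_⟩
    by_contra hE
    rw [P.newτ_not_mem hE] at hc
    rcases lt_or_ge y e with h3 | h3
    · rw [hleft y ha h3] at hc
      exact hxX hc
    · rw [hright y h3 (by linarith)] at hc
      exact heX hc
  have hzd := P.zone hzE he
  have hde := P.le_d he
  have hde2 := P.d_le he
  -- either a full cell in the second window
  by_cases hfull : ∃ j ∈ P.J, x' ≤ j * P.r ∧ (j + 1) * P.r ≤ x' + h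
  · obtain ⟨j, hj, h1, h2⟩ := hfull
    refine ⟨X, ?_⟩
    have h3 := P.le_cont (τ := τ) (X := X) hj h1 h2
    have h4 := P.cont_le (τ := τ) (X := X) (x := x) (h := h) (hxx.trans h1) hnoX
    rw [abs_sub_comm]
    refine le_trans ?_ (le_abs_self _)
    linarith
  push Not at hfull
  have hDh : P.D ≤ h := by
    rcases lt_or_ge z e with h3 | h3
    · rw [abs_of_neg (by linarith)] at hzd
      linarith
    · rw [abs_of_nonneg (by linarith)] at hzd
      linarith
  obtain ⟨e', he', h1, h2⟩ := P.no_full_cell (x := x') (by linarith) hx' hDh hh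
    (fun j hj h1 => not_le.mpr (hfull j hj h1))
  have hde' := P.le_d he'
  have hde2' := P.d_le he'
  -- the second window is constant on both sides of `e'`
  have hbound : ∀ Y, Y ≠ X → cont (P.newτ τ X) Y x' h ≤ P.d e' + 3 * P.r := by
    intro Y hY
    by_cases hL : ∃ y, x' ≤ y ∧ y < e' ∧ y < x' + h ∧ P.newτ τ X y = Y
    · obtain ⟨y, hy1, hy2, hy2', hy3⟩ := hL
      by_cases hR : ∃ y, x' ≤ y ∧ e' ≤ y ∧ y < x' + h ∧ P.newτ τ X y = Y
      · obtain ⟨w, hw1, hw2, hw2', hw3⟩ := hR
        exfalso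
        refine P.jump_ne hτ he' (y := y) (z := w) (by linarith) hy2 hw2 (by linarith) ?_
        rw [(P.eq_of_newτ hy3 hY).2, (P.eq_of_newτ hw3 hY).2]
      · push Not at hR
        have h3 := cont_le_of_subset (τ := P.newτ τ X) (Y := Y) (x := x') (h := h)
          (a := x') (b := max x' e') (le_max_left _ _) (by
            intro y hy hyY
            refine ⟨hy.1, ?_⟩
            by_contra hcon
            push Not at hcon
            exact hR y hy.1 ((le_max_right _ _).trans hcon) hy.2 hyY)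
        have h4 : max x' e' - x' ≤ P.d e' + 3 * P.r := by
          rcases max_cases x' e' with h5 | h5 <;> linarith
        linarith
    · push Not at hL
      have h3 := cont_le_of_subset (τ := P.newτ τ X) (Y := Y) (x := x') (h := h)
        (a := min (x' + h) e') (b := x' + h) (min_le_left _ _) (by
          intro y hy hyY
          refine ⟨?_, hy.2⟩
          by_contra hcon
          push Not at hcon
          exact hL y hy.1 (lt_of_lt_of_le hcon (min_le_right _ _)) hy.2 hyY)
      have h4 : x' + h - min (x' + h) e' ≤ P.d e' + 3 * P.r := by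
        rcases min_cases (x' + h) e' with h5 | h5 <;> linarith
      linarith
  -- position of `e'`
  have hee' : e ≤ e' := by
    by_contra hcon
    push Not at hcon
    have h3 := P.hgap e he e' he' hcon.ne'
    rw [abs_of_pos (by linarith)] at h3
    linarith
  rcases hee'.lt_or_eq with hlt | heq
  · -- different edges
    have h3 := P.d_sub he he' hlt
    rcases lt_or_ge z e with h4 | h4
    · refine ⟨τ x, ?_⟩
      have h5 := hbound (τ x) hxX
      rw [abs_of_neg (by linarith)] at hzd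
      have h6 := le_cont_of_subset (τ := P.newτ τ X) (Y := τ x) (x := x) (h := h)
        (a := e - P.d e) (b := e) (by linarith) (by
          intro y hy1 hy2
          refine ⟨by linarith, by linarith, ?_⟩
          rw [P.newτ_not_mem]
          · exact hleft y (by linarith) hy2
          · intro hE
            have h7 := P.zone hE he
            rw [abs_of_neg (by linarith)] at h7
            linarith)
      refine le_trans ?_ (le_abs_self _)
      nlinarith
    · refine ⟨τ e, ?_⟩
      have h5 := hbound (τ e) heX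
      rw [abs_of_nonneg (by linarith)] at hzd
      have h6 := le_cont_of_subset (τ := P.newτ τ X) (Y := τ e) (x := x) (h := h)
        (a := e) (b := e + P.d e) (by linarith) (by
          intro y hy1 hy2
          refine ⟨by linarith, by linarith, ?_⟩
          rw [P.newτ_not_mem]
          · exact hright y (by linarith) (by linarith)
          · intro hE
            have h7 := P.zone hE he
            rw [abs_of_nonneg (by linarith)] at h7
            linarith)
      refine le_trans ?_ (le_abs_self _)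
      nlinarith
  · subst heq
    rcases lt_or_ge z e with h4 | h4
    · refine ⟨τ x, ?_⟩
      rw [abs_of_neg (by linarith)] at hzd
      have h6 := le_cont_of_subset (τ := P.newτ τ X) (Y := τ x) (x := x) (h := h)
        (a := e - P.d e) (b := e) (by linarith) (by
          intro y hy1 hy2
          refine ⟨by linarith, by linarith, ?_⟩
          rw [P.newτ_not_mem]
          · exact hleft y (by linarith) hy2
          · intro hE
            have h7 := P.zone hE he
            rw [abs_of_neg (by linarith)] at h7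
            linarith)
      have h7 := cont_le_of_subset (τ := P.newτ τ X) (Y := τ x) (x := x') (h := h)
        (a := 0) (b := 0) le_rfl (by
          intro y hy hyY
          exfalso
          have h8 := (P.eq_of_newτ hyY hxX).2
          rw [hright y (by linarith [hy.1]) (by linarith [hy.2])] at h8
          exact hxe h8.symm)
      refine le_trans ?_ (le_abs_self _)
      linarith
    · exfalso
      rw [abs_of_nonneg (by linarith)] at hzd
      linarith

open Classical in
/-- the new set of jump points -/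
noncomputable def Par.newS (P : Par) (τ : ℝ → Fin 3) (X : Fin 3) : Finset ℝ :=
  P.S ∪ ((P.J.filter (fun j : ℕ => τ ((j : ℝ) * P.r) ≠ X)).image (fun j : ℕ => (j : ℝ) * P.r) ∪
    (P.J.filter (fun j : ℕ => τ ((j : ℝ) * P.r) ≠ X)).image
      (fun j : ℕ => (j : ℝ) * P.r + P.κ * 2 ^ j))

lemma Par.mem_newS (P : Par) {τ : ℝ → Fin 3} {X : Fin 3} {y : ℝ} : y ∈ P.newS τ X ↔
    y ∈ P.S ∨ ∃ j ∈ P.J, τ (j * P.r) ≠ X ∧ (y = j * P.r ∨ y = j * P.r + P.κ * 2 ^ j) := by
  classical
  unfold Par.newS
  simp only [Finset.mem_union, Finset.mem_image, Finset.mem_filter]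
  constructor
  · rintro (h | ⟨j, ⟨h1, h2⟩, h3⟩ | ⟨j, ⟨h1, h2⟩, h3⟩)
    · exact Or.inl h
    · exact Or.inr ⟨j, h1, h2, Or.inl h3.symm⟩
    · exact Or.inr ⟨j, h1, h2, Or.inr h3.symm⟩
  · rintro (h | ⟨j, h1, h2, (h3 | h3)⟩)
    · exact Or.inl h
    · exact Or.inr (Or.inl ⟨j, ⟨h1, h2⟩, h3.symm⟩)
    · exact Or.inr (Or.inr ⟨j, ⟨h1, h2⟩, h3.symm⟩)

lemma Par.len_le_half (P : Par) {j : ℕ} (hj : j < P.N) : P.κ * 2 ^ j ≤ P.r / 2 := by
  have h1 := P.len_le (j := j + 1) hj
  rw [pow_succ] at h1
  linarith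

lemma Par.mem_newS_bound (P : Par) {τ : ℝ → Fin 3} {X : Fin 3} : ∀ y ∈ P.newS τ X,
    0 ≤ y ∧ y ≤ 1 := by
  intro y hy
  rw [P.mem_newS] at hy
  have hr0 := P.hr0
  rcases hy with h | ⟨j, h1, h2, h3⟩
  · exact P.hS y h
  · have h4 := (P.mem_J.mp h1).1
    have h5 := P.cell_le_one h4
    have h6 := P.len_le_half h4
    have h7 : 0 ≤ (j : ℝ) * P.r := by positivity
    have h8 := P.len_pos j
    rcases h3 with rfl | rfl
    · constructor <;> linarith
    · constructor <;> linarith

/-- `τ` is constant around a cell in `J` -/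
lemma Par.const_cell (P : Par) {τ : ℝ → Fin 3} (hτ : IsStep P.S τ) {j : ℕ} (hj : j ∈ P.J)
    {y : ℝ} (h1 : j * P.r - P.r ≤ y) (h2 : y ≤ j * P.r + P.r) : τ y = τ (j * P.r) := by
  have h3 := (P.mem_J.mp hj).2
  have hD0 := P.hD0
  rcases le_total y (j * P.r) with h | h
  · apply hτ.const _ _ h
    rintro e he ⟨h4, h5⟩
    have h6 := h3 e he
    have h7 := P.le_d he
    rw [abs_of_nonneg (by linarith)] at h6
    linarith
  · symm
    apply hτ.const _ _ h
    rintro e he ⟨h4, h5⟩
    have h6 := h3 e he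
    have h7 := P.le_d he
    rw [abs_of_nonpos (by linarith)] at h6
    linarith

lemma Par.isStep_newτ (P : Par) {τ : ℝ → Fin 3} (hτ : IsStep P.S τ) (X : Fin 3) :
    IsStep (P.newS τ X) (P.newτ τ X) := by
  have hr0 := P.hr0
  have hD0 := P.hD0
  constructor
  · intro x y hxy hno
    have hτxy : τ x = τ y := by
      apply hτ.const _ _ hxy
      intro e he
      exact hno e (P.mem_newS.mpr (Or.inl he))
    by_cases hxE : x ∈ P.E
    · rw [P.newτ_mem hxE]
      by_cases hyE : y ∈ P.E
      · rw [P.newτ_mem hyE]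
      · rw [P.newτ_not_mem hyE]
        obtain ⟨j, hj, h1, h2⟩ := P.mem_E.mp hxE
        have h3 := P.len_le_half (P.mem_J.mp hj).1
        by_cases h4 : τ (j * P.r) = X
        · rw [← hτxy, P.const_cell hτ hj (y := x) (by linarith) (by linarith), h4]
        · exfalso
          have h5 := hno (j * P.r + P.κ * 2 ^ j)
            (P.mem_newS.mpr (Or.inr ⟨j, hj, h4, Or.inr rfl⟩))
          push Not at h5
          have h6 := h5 h2
          exact hyE (P.mem_E.mpr ⟨j, hj, h1.trans hxy, h6⟩)
    · rw [P.newτ_not_mem hxE]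
      by_cases hyE : y ∈ P.E
      · rw [P.newτ_mem hyE]
        obtain ⟨j, hj, h1, h2⟩ := P.mem_E.mp hyE
        have h3 := P.len_le_half (P.mem_J.mp hj).1
        by_cases h4 : τ (j * P.r) = X
        · rw [hτxy, P.const_cell hτ hj (y := y) (by linarith) (by linarith), h4]
        · exfalso
          have h5 := hno (j * P.r) (P.mem_newS.mpr (Or.inr ⟨j, hj, h4, Or.inl rfl⟩))
          push Not at h5
          by_cases h6 : x < j * P.r
          · exact absurd h1 (not_le.mpr (h5 h6))
          · push Not at h6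
            exact hxE (P.mem_E.mpr ⟨j, hj, h6, by linarith⟩)
      · rw [P.newτ_not_mem hyE, hτxy]
  · intro e he x hx
    rcases P.mem_newS.mp he with heS | ⟨j, hj, hjX, h1⟩
    · obtain ⟨y, hy1, hy2, hy3⟩ := hτ.jump e heS (max x (e - P.D)) (max_lt hx (by linarith))
      refine ⟨y, (le_max_left _ _).trans_lt hy1, hy2, ?_⟩
      have hy4 := (le_max_right _ _).trans_lt hy1
      have hde := P.le_d heS
      rw [P.newτ_not_mem, P.newτ_not_mem]
      · exact hy3
      · intro hE
        have h7 := P.zone hE heS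
        rw [sub_self, abs_zero] at h7
        linarith
      · intro hE
        have h7 := P.zone hE heS
        rw [abs_of_neg (by linarith)] at h7
        linarith
    · have h3 := P.len_le_half (P.mem_J.mp hj).1
      have h3' := P.len_pos j
      rcases h1 with rfl | rfl
      · refine ⟨(max x (j * P.r - P.r / 2) + j * P.r) / 2, ?_, ?_, ?_⟩
        · rcases max_cases x (j * P.r - P.r / 2) with h4 | h4 <;> linarith
        · rcases max_cases x (j * P.r - P.r / 2) with h4 | h4 <;> linarith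
        · set y := (max x (j * P.r - P.r / 2) + j * P.r) / 2 with hy
          have hy1 : j * P.r - P.r / 2 ≤ y := by
            rcases max_cases x (j * P.r - P.r / 2) with h4 | h4 <;> rw [hy] <;> linarith
          have hy2 : y < j * P.r := by
            rcases max_cases x (j * P.r - P.r / 2) with h4 | h4 <;> rw [hy] <;> linarith
          rw [P.newτ_mem (P.mem_E.mpr ⟨j, hj, le_rfl, by linarith⟩), P.newτ_not_mem]
          · rw [P.const_cell hτ hj (y := y) (by linarith) (by linarith)]
            exact hjX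
          · intro hE
            obtain ⟨i, hi, h4, h5⟩ := P.mem_E.mp hE
            have h6 := P.len_le_half (P.mem_J.mp hi).1
            have h7 : (i : ℝ) * P.r < j * P.r := by linarith
            have h8 : i < j := by
              have := lt_of_mul_lt_mul_right h7 P.hr0.le
              exact_mod_cast this
            have h9 : ((i : ℝ) + 1) * P.r ≤ j * P.r := by
              apply mul_le_mul_of_nonneg_right _ P.hr0.le
              exact_mod_cast h8
            linarith
      · refine ⟨(max x (j * P.r) + (j * P.r + P.κ * 2 ^ j)) / 2, ?_, ?_, ?_⟩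
        · rcases max_cases x (j * P.r) with h4 | h4 <;> linarith
        · rcases max_cases x (j * P.r) with h4 | h4 <;> linarith
        · set y := (max x (j * P.r) + (j * P.r + P.κ * 2 ^ j)) / 2 with hy
          have hy1 : j * P.r ≤ y := by
            rcases max_cases x (j * P.r) with h4 | h4 <;> rw [hy] <;> linarith
          have hy2 : y < j * P.r + P.κ * 2 ^ j := by
            rcases max_cases x (j * P.r) with h4 | h4 <;> rw [hy] <;> linarith
          rw [P.newτ_mem (P.mem_E.mpr ⟨j, hj, hy1, hy2⟩), P.newτ_not_mem]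
          · rw [P.const_cell hτ hj (y := j * P.r + P.κ * 2 ^ j) (by linarith) (by linarith)]
            exact hjX.symm
          · intro hE
            obtain ⟨i, hi, h4, h5⟩ := P.mem_E.mp hE
            have h6 := P.len_le_half (P.mem_J.mp hi).1
            rcases lt_trichotomy i j with h8 | h8 | h8
            · have h9 : ((i : ℝ) + 1) * P.r ≤ j * P.r := by
                apply mul_le_mul_of_nonneg_right _ P.hr0.le
                exact_mod_cast h8
              linarith
            · subst h8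
              linarith
            · have h9 : ((j : ℝ) + 1) * P.r ≤ i * P.r := by
                apply mul_le_mul_of_nonneg_right _ P.hr0.le
                exact_mod_cast h8
              linarith

/-- existence of parameters -/
lemma exists_par (S : Finset ℝ) (hS : ∀ e ∈ S, 0 ≤ e ∧ e ≤ 1) (η : ℝ) (hη : 0 < η) :
    ∃ P : Par, P.S = S ∧ 8 * P.D ≤ η ∧ P.κ * 2 ^ P.N ≤ η := by
  obtain ⟨m, hm0, hm1, hm⟩ := exists_gap S
  obtain ⟨D, hD0, hD, hDη⟩ : ∃ D : ℝ, 0 < D ∧ 100 * D ≤ m ∧ 8 * D ≤ η :=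
    ⟨min (m / 100) (η / 8), by positivity, by linarith [min_le_left (m / 100) (η / 8)],
      by linarith [min_le_right (m / 100) (η / 8)]⟩
  obtain ⟨n, hn⟩ := exists_nat_gt (100 / (D * m))
  have hDm : 0 < D * m := by positivity
  have hn0 : (0 : ℝ) < n := lt_trans (by positivity) hn
  have hr0 : (0 : ℝ) < 1 / n := by positivity
  refine ⟨{ S := S, m := m, D := D, r := 1 / n, κ := min (1 / (n : ℝ)) η / 2 ^ n, N := n, hS := hS,
            hm0 := hm0, hm1 := hm1, hgap := hm, hD0 := hD0, hD := hD, hr0 := hr0, hr := ?_,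
            hN := ?_, hκ0 := ?_, hκ := ?_ }, rfl, hDη, ?_⟩
  · rw [div_lt_iff₀ hDm] at hn
    rw [mul_one_div, div_le_iff₀ hn0]
    linarith
  · field_simp
  · have : 0 < min (1 / (n : ℝ)) η := lt_min hr0 hη
    positivity
  · rw [div_mul_cancel₀ _ (by positivity)]
    exact min_le_left _ _
  · change min (1 / (n : ℝ)) η / 2 ^ n * 2 ^ n ≤ η
    rw [div_mul_cancel₀ _ (by positivity)]
    exact min_le_right _ _

lemma Par.measureReal_E_le (P : Par) : volume.real P.E ≤ P.κ * 2 ^ P.N := by
  have h1 : P.E ⊆ ⋃ i ∈ Finset.range P.N, P.block i := by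
    intro y hy
    obtain ⟨j, hj, h1, h2⟩ := P.mem_E.mp hy
    exact Set.mem_biUnion (Finset.mem_coe.mpr (Finset.mem_range.mpr (P.mem_J.mp hj).1)) ⟨h1, h2⟩
  have hfin : volume (⋃ i ∈ Finset.range P.N, P.block i) ≠ ⊤ := by
    apply ne_of_lt
    apply (measure_biUnion_finset_le _ _).trans_lt
    apply ENNReal.sum_lt_top.mpr
    intro i _
    exact measure_Ico_lt_top
  calc volume.real P.E ≤ volume.real (⋃ i ∈ Finset.range P.N, P.block i) :=
        measureReal_mono h1 hfin
    _ ≤ ∑ i ∈ Finset.range P.N, volume.real (P.block i) := measureReal_biUnion_finset_le _ _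
    _ = P.κ * 2 ^ P.N - P.κ := by
        simp only [measureReal_block, ← Finset.mul_sum]
        have h4 : ∑ i ∈ Finset.range P.N, (2 : ℝ) ^ i = 2 ^ P.N - 1 := by
          have := geom_sum_eq (by norm_num : (2 : ℝ) ≠ 1) P.N
          rw [this]
          norm_num
        rw [h4]
        ring
    _ ≤ P.κ * 2 ^ P.N := by linarith [P.hκ0]

end Pool.Agent.H20.Rec
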