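import Mathlib

set_option autoImplicit false

/-!
Two test sets do not suffice to reconstruct an interval.
-/

namespace Pool.Agent.H20.RecLower

open MeasureTheory Set Filter Topology

section abstract_part

variable (f g : ℝ → ℝ)

/-- hypothesis on the sum function and on increments -/
structure Good (f g : ℝ → ℝ) : Prop where
  cf : Continuous f
  cg : Continuous g
  mono : StrictMono (fun x => f x + g x)
  inj : ∀ a b c d, a < b → c < d → f b - f a = f d - f c → g b - g a = g d - g c → a = c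

variable {f g}

/-- the inverse of `f + g` -/
noncomputable def σ (f g : ℝ → ℝ) : ℝ → ℝ := Function.invFun (fun x => f x + g x)

def I (f g : ℝ → ℝ) : Set ℝ := range (fun x => f x + g x)

lemma σ_apply (h : Good f g) (x : ℝ) : σ f g (f x + g x) = x :=
  Function.leftInverse_invFun h.mono.injective x

lemma apply_σ {u : ℝ} (hu : u ∈ I f g) : f (σ f g u) + g (σ f g u) = u := by
  obtain ⟨x, hx⟩ := hu
  exact Function.invFun_eq (f := fun x => f x + g x) ⟨x, hx⟩

lemma ordI (h : Good f g) : OrdConnected (I f g) :=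
  (isPreconnected_range (h.cf.add h.cg)).ordConnected

lemma σ_lt (h : Good f g) {u v : ℝ} (hu : u ∈ I f g) (hv : v ∈ I f g) (huv : u < v) :
    σ f g u < σ f g v := by
  apply h.mono.lt_iff_lt.mp
  change f (σ f g u) + g (σ f g u) < f (σ f g v) + g (σ f g v)
  rw [apply_σ hu, apply_σ hv]
  exact huv

lemma σ_cont (h : Good f g) : ContinuousOn (σ f g) (I f g) := by
  have hord := ordI h
  intro u hu
  obtain ⟨x, rfl⟩ := hu
  rw [ContinuousWithinAt]
  simp only
  rw [σ_apply h x, tendsto_order]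
  constructor
  · intro a ha
    have h1 : f a + g a < f x + g x := h.mono ha
    filter_upwards [self_mem_nhdsWithin, mem_nhdsWithin_of_mem_nhds (lt_mem_nhds h1)] with v hv hv'
    apply h.mono.lt_iff_lt.mp
    change f a + g a < f (σ f g v) + g (σ f g v)
    rw [apply_σ hv]
    exact hv'
  · intro a ha
    have h1 : f x + g x < f a + g a := h.mono ha
    filter_upwards [self_mem_nhdsWithin, mem_nhdsWithin_of_mem_nhds (gt_mem_nhds h1)] with v hv hv'
    apply h.mono.lt_iff_lt.mp
    change f (σ f g v) + g (σ f g v) < f a + g a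
    rw [apply_σ hv]
    exact hv'

/-- parameter set for pairs of windows -/
def Ω (f g : ℝ → ℝ) : Set (ℝ × ℝ × ℝ) :=
  {p | p.1 < p.2.1 ∧ 0 < p.2.2 ∧ p.1 ∈ I f g ∧ p.2.1 + p.2.2 ∈ I f g}

noncomputable def Φ (f g : ℝ → ℝ) (p : ℝ × ℝ × ℝ) : ℝ :=
  (f (σ f g (p.2.1 + p.2.2)) - f (σ f g p.2.1)) - (f (σ f g (p.1 + p.2.2)) - f (σ f g p.1))

lemma Ω_mem (h : Good f g) {p : ℝ × ℝ × ℝ} (hp : p ∈ Ω f g) :
    p.2.1 ∈ I f g ∧ p.1 + p.2.2 ∈ I f g := by
  obtain ⟨h1, h2, h3, h4⟩ := hp
  have hord := ordI h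
  constructor
  · exact hord.out h3 h4 ⟨h1.le, by linarith⟩
  · exact hord.out h3 h4 ⟨by linarith, by linarith⟩

lemma convex_Ω (h : Good f g) : Convex ℝ (Ω f g) := by
  have hI : Convex ℝ (I f g) := (ordI h).convex
  intro p hp q hq a b ha hb hab
  obtain ⟨p1, p2, p3, p4⟩ := hp
  obtain ⟨q1, q2, q3, q4⟩ := hq
  refine ⟨?_, ?_, ?_, ?_⟩
  · simp only [Prod.fst_add, Prod.smul_fst, Prod.snd_add, Prod.smul_snd, smul_eq_mul]
    rcases ha.eq_or_lt with h0 | h0
    · subst h0
      have : b = 1 := by linarith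
      subst this
      linarith
    · nlinarith [mul_lt_mul_of_pos_left p1 h0, mul_le_mul_of_nonneg_left q1.le hb]
  · simp only [Prod.snd_add, Prod.smul_snd, smul_eq_mul]
    rcases ha.eq_or_lt with h0 | h0
    · subst h0
      have : b = 1 := by linarith
      subst this
      linarith
    · nlinarith [mul_pos h0 p2, mul_nonneg hb q2.le]
  · have := hI p3 q3 ha hb hab
    simpa using this
  · have := hI p4 q4 ha hb hab
    have e : (a • p + b • q).2.1 + (a • p + b • q).2.2 =
        a • (p.2.1 + p.2.2) + b • (q.2.1 + q.2.2) := by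
      simp only [Prod.fst_add, Prod.smul_fst, Prod.snd_add, Prod.smul_snd, smul_eq_mul]
      ring
    rw [e]
    exact this

lemma cont_Φ (h : Good f g) : ContinuousOn (Φ f g) (Ω f g) := by
  have hσ := σ_cont h
  have hfσ : ContinuousOn (fun u => f (σ f g u)) (I f g) := h.cf.comp_continuousOn hσ
  unfold Φ
  apply ContinuousOn.sub
  · apply ContinuousOn.sub
    · exact hfσ.comp (f := fun p : ℝ × ℝ × ℝ => p.2.1 + p.2.2) (by fun_prop)
        (fun p hp => hp.2.2.2)
    · exact hfσ.comp (f := fun p : ℝ × ℝ × ℝ => p.2.1) (by fun_prop)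
        (fun p hp => (Ω_mem h hp).1)
  · apply ContinuousOn.sub
    · exact hfσ.comp (f := fun p : ℝ × ℝ × ℝ => p.1 + p.2.2) (by fun_prop)
        (fun p hp => (Ω_mem h hp).2)
    · exact hfσ.comp (f := fun p : ℝ × ℝ × ℝ => p.1) (by fun_prop)
        (fun p hp => hp.2.2.1)

lemma Φ_ne_zero (h : Good f g) {p : ℝ × ℝ × ℝ} (hp : p ∈ Ω f g) : Φ f g p ≠ 0 := by
  intro h0
  obtain ⟨m1, m2⟩ := Ω_mem h hp
  obtain ⟨h1, h2, h3, h4⟩ := hp
  have e1 := apply_σ h3
  have e2 := apply_σ h4
  have e3 := apply_σ m1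
  have e4 := apply_σ m2
  have l1 := σ_lt h h3 m2 (by linarith)
  have l2 := σ_lt h m1 h4 (by linarith)
  have l3 := σ_lt h h3 m1 h1
  unfold Φ at h0
  have := h.inj _ _ _ _ l1 l2 (by linarith) (by linarith)
  linarith

lemma Φ_sign (h : Good f g) : (∀ p ∈ Ω f g, 0 < Φ f g p) ∨ (∀ p ∈ Ω f g, Φ f g p < 0) := by
  by_contra hcon
  push Not at hcon
  obtain ⟨⟨p, hp, hp'⟩, ⟨q, hq, hq'⟩⟩ := hcon
  obtain ⟨r, hr, hr'⟩ := (convex_Ω h).isPreconnected.intermediate_value hp hq (cont_Φ h)
    ⟨hp', hq'⟩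
  exact Φ_ne_zero h hr hr'

/-- the sign alternative in terms of windows -/
lemma windows_lt (h : Good f g) (hΦ : ∀ p ∈ Ω f g, 0 < Φ f g p) {a b c d : ℝ} (hac : a < c)
    (hab : a < b) (hs : (f b + g b) - (f a + g a) = (f d + g d) - (f c + g c)) :
    f b - f a < f d - f c := by
  have h1 : (f a + g a, f c + g c, (f b + g b) - (f a + g a)) ∈ Ω f g := by
    refine ⟨h.mono hac, by have := h.mono hab; simp only at this ⊢; linarith, ⟨a, rfl⟩, ⟨d, ?_⟩⟩
    simp only
    linarith
  have h2 := hΦ _ h1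
  unfold Φ at h2
  simp only at h2
  have e1 : f c + g c + (f b + g b - (f a + g a)) = f d + g d := by linarith
  have e2 : f a + g a + (f b + g b - (f a + g a)) = f b + g b := by ring
  rw [e1, e2, σ_apply h, σ_apply h, σ_apply h, σ_apply h] at h2
  linarith

/-- `f` as a function of the parameter `f + g` -/
noncomputable def F (f g : ℝ → ℝ) (u : ℝ) : ℝ := f (σ f g u)

lemma F_mono (hΦ : ∀ p ∈ Ω f g, 0 < Φ f g p) {u w t : ℝ} (huw : u ≤ w) (ht : 0 < t)
    (hu : u ∈ I f g) (hw : w + t ∈ I f g) :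
    F f g (u + t) - F f g u ≤ F f g (w + t) - F f g w := by
  rcases huw.eq_or_lt with h1 | h1
  · rw [h1]
  · have h2 := hΦ (u, w, t) ⟨h1, ht, hu, hw⟩
    unfold Φ at h2
    simp only at h2
    unfold F
    linarith

lemma F_lt (hΦ : ∀ p ∈ Ω f g, 0 < Φ f g p) {u w t : ℝ} (huw : u < w) (ht : 0 < t)
    (hu : u ∈ I f g) (hw : w + t ∈ I f g) :
    F f g (u + t) - F f g u < F f g (w + t) - F f g w := by
  have h2 := hΦ (u, w, t) ⟨huw, ht, hu, hw⟩
  unfold Φ at h2
  simp only at h2
  unfold F
  linarith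

lemma chain (h : Good f g) (hΦ : ∀ p ∈ Ω f g, 0 < Φ f g p) {u v : ℝ} (huv : u < v)
    (hu : u ∈ I f g) (hv : v ∈ I f g) (n : ℕ) :
    ((n : ℝ) + 1) * (F f g (u + (v - u) / (n + 1)) - F f g u) ≤ F f g v - F f g u ∧
    F f g v - F f g u ≤ ((n : ℝ) + 1) * (F f g v - F f g (v - (v - u) / (n + 1))) := by
  have hn : (0 : ℝ) < n + 1 := by positivity
  set t := (v - u) / ((n : ℝ) + 1) with ht
  have ht0 : 0 < t := div_pos (by linarith) hn
  have htn : ((n : ℝ) + 1) * t = v - u := by
    rw [ht]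
    field_simp
  have hord := ordI h
  have hmem : ∀ k : ℕ, k ≤ n + 1 → u + k * t ∈ I f g := by
    intro k hk
    apply hord.out hu hv
    have hk' : (k : ℝ) ≤ n + 1 := by exact_mod_cast hk
    constructor
    · have : 0 ≤ (k : ℝ) * t := by positivity
      linarith
    · have : (k : ℝ) * t ≤ (n + 1) * t := mul_le_mul_of_nonneg_right hk' ht0.le
      linarith
  have hsum := Finset.sum_range_sub (fun k : ℕ => F f g (u + k * t)) (n + 1)
  have e1 : F f g (u + ((n + 1 : ℕ) : ℝ) * t) = F f g v := by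
    congr 1
    push_cast
    linarith
  rw [e1] at hsum
  have e2 : F f g (u + ((0 : ℕ) : ℝ) * t) = F f g u := by
    congr 1
    push_cast
    ring
  rw [e2] at hsum
  have hcard : ((n + 1 : ℕ) : ℝ) = (n : ℝ) + 1 := by push_cast; ring
  constructor
  · rw [← hsum]
    have h1 := Finset.card_nsmul_le_sum (Finset.range (n + 1))
      (fun k : ℕ => F f g (u + ((k + 1 : ℕ) : ℝ) * t) - F f g (u + (k : ℝ) * t))
      (F f g (u + t) - F f g u) (by
        intro k hk
        have hk' : k + 1 ≤ n + 1 := by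
          have := Finset.mem_range.mp hk
          omega
        have e3 : u + ((k + 1 : ℕ) : ℝ) * t = u + (k : ℝ) * t + t := by
          push_cast
          ring
        have h2 := hmem (k + 1) hk'
        rw [e3] at h2 ⊢
        have h3 : 0 ≤ (k : ℝ) * t := by positivity
        exact F_mono hΦ (by linarith) ht0 hu h2)
    rw [Finset.card_range, nsmul_eq_mul, hcard] at h1
    exact h1
  · rw [← hsum]
    have h1 := Finset.sum_le_card_nsmul (Finset.range (n + 1))
      (fun k : ℕ => F f g (u + ((k + 1 : ℕ) : ℝ) * t) - F f g (u + (k : ℝ) * t))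
      (F f g v - F f g (v - t)) (by
        intro k hk
        have hk' : k ≤ n + 1 := by
          have := Finset.mem_range.mp hk
          omega
        have e3 : u + ((k + 1 : ℕ) : ℝ) * t = u + (k : ℝ) * t + t := by
          push_cast
          ring
        have h2 := hmem k hk'
        rw [e3]
        have h3 : (k : ℝ) * t ≤ n * t := by
          apply mul_le_mul_of_nonneg_right _ ht0.le
          have := Finset.mem_range.mp hk
          have h4 : k ≤ n := by omega
          exact_mod_cast h4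
        have h5 := F_mono hΦ (u := u + k * t) (w := v - t) (by linarith) ht0 h2
          (by rw [sub_add_cancel]; exact hv)
        rw [sub_add_cancel] at h5
        exact h5)
    rw [Finset.card_range, nsmul_eq_mul, hcard] at h1
    exact h1

lemma tendsto_step {w : ℝ} (hw : 0 < w) :
    Tendsto (fun n : ℕ => w / ((n : ℝ) + 1)) atTop (𝓝[>] 0) := by
  rw [tendsto_nhdsWithin_iff]
  constructor
  · have := tendsto_one_div_add_atTop_nhds_zero_nat (𝕜 := ℝ)
    have h2 := this.const_mul w
    rw [mul_zero] at h2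
    refine h2.congr (fun n => ?_)
    rw [mul_one_div]
  · filter_upwards with n
    have : (0 : ℝ) < n + 1 := by positivity
    exact div_pos hw this

lemma slope_right (h : Good f g) (hΦ : ∀ p ∈ Ω f g, 0 < Φ f g p) {u v : ℝ} (huv : u < v)
    (hu : u ∈ I f g) (hv : v ∈ I f g) {F' : ℝ} (hF : HasDerivAt (F f g) F' u) :
    F' ≤ (F f g v - F f g u) / (v - u) := by
  have h1 := hF.tendsto_slope_zero_right.comp (tendsto_step (sub_pos.mpr huv))
  apply le_of_tendsto' h1
  intro n
  have h2 := (chain h hΦ huv hu hv n).1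
  have hn : (0 : ℝ) < n + 1 := by positivity
  have hvu : 0 < v - u := sub_pos.mpr huv
  simp only [Function.comp_apply, smul_eq_mul]
  rw [inv_div, le_div_iff₀ hvu]
  calc (↑n + 1) / (v - u) * (F f g (u + (v - u) / (↑n + 1)) - F f g u) * (v - u)
      = (↑n + 1) * (F f g (u + (v - u) / (↑n + 1)) - F f g u) := by
        field_simp
    _ ≤ F f g v - F f g u := h2

lemma slope_left (h : Good f g) (hΦ : ∀ p ∈ Ω f g, 0 < Φ f g p) {u v : ℝ} (huv : u < v)
    (hu : u ∈ I f g) (hv : v ∈ I f g) {F' : ℝ} (hF : HasDerivAt (F f g) F' v) :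
    (F f g v - F f g u) / (v - u) ≤ F' := by
  have hstep : Tendsto (fun n : ℕ => - ((v - u) / ((n : ℝ) + 1))) atTop (𝓝[<] 0) := by
    have h0 := tendsto_step (sub_pos.mpr huv)
    rw [tendsto_nhdsWithin_iff] at h0 ⊢
    refine ⟨?_, ?_⟩
    · have := h0.1.neg
      rwa [neg_zero] at this
    · filter_upwards [h0.2] with n hn
      exact neg_lt_zero.mpr (mem_Ioi.mp hn)
  have h1 := hF.tendsto_slope_zero_left.comp hstep
  apply ge_of_tendsto' h1
  intro n
  have h2 := (chain h hΦ huv hu hv n).2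
  have hn : (0 : ℝ) < n + 1 := by positivity
  have hvu : 0 < v - u := sub_pos.mpr huv
  simp only [Function.comp_apply, smul_eq_mul]
  rw [inv_neg, inv_div, div_le_iff₀ hvu]
  calc F f g v - F f g u ≤ (↑n + 1) * (F f g v - F f g (v - (v - u) / (↑n + 1))) := h2
    _ = -((↑n + 1) / (v - u)) * (F f g (v + -((v - u) / (↑n + 1))) - F f g v) * (v - u) := by
        rw [← sub_eq_add_neg v]
        field_simp
        ring

lemma deriv_lt (h : Good f g) (hΦ : ∀ p ∈ Ω f g, 0 < Φ f g p) {u v : ℝ} (huv : u < v)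
    (hu : u ∈ I f g) (hv : v ∈ I f g) {F' F'' : ℝ} (hF : HasDerivAt (F f g) F' u)
    (hF2 : HasDerivAt (F f g) F'' v) : F' < F'' := by
  have hord := ordI h
  have hw : (u + v) / 2 ∈ I f g := hord.out hu hv ⟨by linarith, by linarith⟩
  have h1 := slope_right h hΦ (v := (u + v) / 2) (by linarith) hu hw hF
  have h2 := slope_left h hΦ (u := (u + v) / 2) (by linarith) hw hv hF2
  have h3 := F_lt hΦ (u := u) (w := (u + v) / 2) (t := (v - u) / 2) (by linarith) (by linarith)
    hu (by have : (u + v) / 2 + (v - u) / 2 = v := by ring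
           rw [this]; exact hv)
  have e1 : u + (v - u) / 2 = (u + v) / 2 := by ring
  have e2 : (u + v) / 2 + (v - u) / 2 = v := by ring
  rw [e1, e2] at h3
  have e3 : (u + v) / 2 - u = (v - u) / 2 := by ring
  have e4 : v - (u + v) / 2 = (v - u) / 2 := by ring
  rw [e3] at h1
  rw [e4] at h2
  have h4 : (F f g ((u + v) / 2) - F f g u) / ((v - u) / 2) <
      (F f g v - F f g ((u + v) / 2)) / ((v - u) / 2) :=
    div_lt_div_of_pos_right h3 (by linarith)
  linarith

lemma hasDerivAt_F (h : Good f g) {x f' g' : ℝ} (hf : HasDerivAt f f' x) (hg : HasDerivAt g g' x)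
    (hpos : f' + g' ≠ 0) : HasDerivAt (F f g) (f' / (f' + g')) (f x + g x) := by
  have hnhds : I f g ∈ 𝓝 (f x + g x) := by
    have hord := ordI h
    have h1 : f (x - 1) + g (x - 1) < f x + g x := h.mono (by linarith)
    have h2 : f x + g x < f (x + 1) + g (x + 1) := h.mono (by linarith)
    apply mem_of_superset (Icc_mem_nhds h1 h2)
    exact hord.out ⟨x - 1, rfl⟩ ⟨x + 1, rfl⟩
  have hσc : ContinuousAt (σ f g) (f x + g x) := (σ_cont h).continuousAt hnhds
  have hsum : HasDerivAt (fun x => f x + g x) (f' + g') (σ f g (f x + g x)) := by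
    rw [σ_apply h]
    exact hf.add hg
  have hσ : HasDerivAt (σ f g) (f' + g')⁻¹ (f x + g x) := by
    apply HasDerivAt.of_local_left_inverse hσc hsum hpos
    filter_upwards [hnhds] with u hu
    exact apply_σ hu
  have hf' : HasDerivAt f f' (σ f g (f x + g x)) := by
    rw [σ_apply h]
    exact hf
  have := hf'.comp (f x + g x) hσ
  rw [← div_eq_mul_inv] at this
  exact this

lemma good_swap (h : Good f g) : Good g f where
  cf := h.cg
  cg := h.cf
  mono := by
    have h1 := h.mono
    intro a b hab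
    have h2 := h1 hab
    simp only at h2 ⊢
    linarith
  inj := fun a b c d hab hcd h1 h2 => h.inj a b c d hab hcd h2 h1

lemma σ_swap : σ g f = σ f g := by
  unfold σ
  have : (fun x => g x + f x) = (fun x => f x + g x) := by
    funext x
    exact add_comm _ _
  rw [this]

lemma I_swap : I g f = I f g := by
  unfold I
  have : (fun x => g x + f x) = (fun x => f x + g x) := by
    funext x
    exact add_comm _ _
  rw [this]

lemma Φ_swap (h : Good f g) (hΦ : ∀ p ∈ Ω f g, Φ f g p < 0) : ∀ p ∈ Ω g f, 0 < Φ g f p := by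
  intro p hp
  have hp' : p ∈ Ω f g := by
    unfold Ω at hp ⊢
    rw [I_swap] at hp
    exact hp
  have h1 := hΦ p hp'
  obtain ⟨m1, m2⟩ := Ω_mem h hp'
  have e1 := apply_σ hp'.2.2.1
  have e2 := apply_σ hp'.2.2.2
  have e3 := apply_σ m1
  have e4 := apply_σ m2
  unfold Φ at h1 ⊢
  rw [σ_swap (f := f) (g := g)]
  linarith

end abstract_part

/-- if `f' , g' ∈ {0,1}` at four points, not both zero, contradiction -/
lemma no_four {f g : ℝ → ℝ} (h : Good f g) (hΦ : ∀ p ∈ Ω f g, 0 < Φ f g p)
    (x : ℕ → ℝ) (hx : StrictMono x) (f' g' : ℕ → ℝ)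
    (hf : ∀ k, HasDerivAt f (f' k) (x k)) (hg : ∀ k, HasDerivAt g (g' k) (x k))
    (hv : ∀ k, (f' k = 1 ∧ g' k = 1) ∨ (f' k = 1 ∧ g' k = 0) ∨ (f' k = 0 ∧ g' k = 1)) : False := by
  have hpos : ∀ k, f' k + g' k ≠ 0 := by
    intro k
    rcases hv k with ⟨h1, h2⟩ | ⟨h1, h2⟩ | ⟨h1, h2⟩ <;> rw [h1, h2] <;> norm_num
  have hval : ∀ k, f' k / (f' k + g' k) = 1 / 2 ∨ f' k / (f' k + g' k) = 1 ∨
      f' k / (f' k + g' k) = 0 := by
    intro k
    rcases hv k with ⟨h1, h2⟩ | ⟨h1, h2⟩ | ⟨h1, h2⟩ <;> rw [h1, h2] <;> norm_num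
  have hlt : ∀ k, f' k / (f' k + g' k) < f' (k + 1) / (f' (k + 1) + g' (k + 1)) := by
    intro k
    apply deriv_lt h hΦ (u := f (x k) + g (x k)) (v := f (x (k + 1)) + g (x (k + 1)))
    · exact h.mono (hx (Nat.lt_succ_self k))
    · exact ⟨x k, rfl⟩
    · exact ⟨x (k + 1), rfl⟩
    · exact hasDerivAt_F h (hf k) (hg k) (hpos k)
    · exact hasDerivAt_F h (hf (k + 1)) (hg (k + 1)) (hpos (k + 1))
  have h0 := hlt 0
  have h1 := hlt 1
  have h2 := hlt 2
  have v0 := hval 0
  have v1 := hval 1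
  have v2 := hval 2
  have v3 := hval 3
  norm_num at h0 h1 h2
  rcases v0 with v0 | v0 | v0 <;> rcases v1 with v1 | v1 | v1 <;> rcases v2 with v2 | v2 | v2 <;>
    rcases v3 with v3 | v3 | v3 <;> linarith

/-- Two measurable sets do not reconstruct intervals. -/
theorem two_fail (A B : Set ℝ) (hA : MeasurableSet A) (hB : MeasurableSet B)
    (h : ∀ a b c d : ℝ, a < b → c < d → volume (Icc a b ∩ A) = volume (Icc c d ∩ A) →
      volume (Icc a b ∩ B) = volume (Icc c d ∩ B) → a = c) : False := by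
  classical
  set f : ℝ → ℝ := fun x => ∫ t in (0 : ℝ)..x, A.indicator (fun _ => (1 : ℝ)) t with hfdef
  set g : ℝ → ℝ := fun x => ∫ t in (0 : ℝ)..x, B.indicator (fun _ => (1 : ℝ)) t with hgdef
  have hloc : ∀ C : Set ℝ, MeasurableSet C →
      LocallyIntegrable (C.indicator (fun _ => (1 : ℝ))) volume := by
    intro C hC
    exact (locallyIntegrable_const (1 : ℝ)).indicator hC
  have hint : ∀ C : Set ℝ, MeasurableSet C → ∀ a b : ℝ,
      IntervalIntegrable (C.indicator (fun _ => (1 : ℝ))) volume a b := by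
    intro C hC a b
    exact intervalIntegrable_iff.mpr
      (((hloc C hC).integrableOn_isCompact isCompact_uIcc).mono_set uIoc_subset_uIcc)
  have hinc : ∀ C : Set ℝ, MeasurableSet C → ∀ a b : ℝ, a ≤ b →
      (∫ t in (0 : ℝ)..b, C.indicator (fun _ => (1 : ℝ)) t) -
        (∫ t in (0 : ℝ)..a, C.indicator (fun _ => (1 : ℝ)) t) = volume.real (Icc a b ∩ C) := by
    intro C hC a b hab
    rw [intervalIntegral.integral_interval_sub_left (hint C hC 0 b) (hint C hC 0 a),
      intervalIntegral.integral_of_le hab, ← integral_Icc_eq_integral_Ioc,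
      setIntegral_indicator hC, setIntegral_const, smul_eq_mul, mul_one]
  have hfin : ∀ (C : Set ℝ) (a b : ℝ), volume (Icc a b ∩ C) ≠ ⊤ := fun C a b =>
    ((measure_mono inter_subset_left).trans_lt measure_Icc_lt_top).ne
  have hcont : ∀ C : Set ℝ, MeasurableSet C →
      Continuous (fun x => ∫ t in (0 : ℝ)..x, C.indicator (fun _ => (1 : ℝ)) t) := by
    intro C hC
    exact intervalIntegral.continuous_primitive (hint C hC) 0
  -- reconstruct property in terms of increments
  have hrec : ∀ a b c d, a < b → c < d → f b - f a = f d - f c → g b - g a = g d - g c →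
      a = c := by
    intro a b c d hab hcd h1 h2
    apply h a b c d hab hcd
    · simp only [hfdef] at h1
      rw [hinc A hA a b hab.le, hinc A hA c d hcd.le] at h1
      exact (ENNReal.toReal_eq_toReal_iff' (hfin _ _ _) (hfin _ _ _)).mp h1
    · simp only [hgdef] at h2
      rw [hinc B hB a b hab.le, hinc B hB c d hcd.le] at h2
      exact (ENNReal.toReal_eq_toReal_iff' (hfin _ _ _) (hfin _ _ _)).mp h2
  have hfm : ∀ a b, a ≤ b → f a ≤ f b := by
    intro a b hab
    have := hinc A hA a b hab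
    have h2 : 0 ≤ volume.real (Icc a b ∩ A) := measureReal_nonneg
    simp only [hfdef]
    linarith
  have hgm : ∀ a b, a ≤ b → g a ≤ g b := by
    intro a b hab
    have := hinc B hB a b hab
    have h2 : 0 ≤ volume.real (Icc a b ∩ B) := measureReal_nonneg
    simp only [hgdef]
    linarith
  have hmono : StrictMono (fun x => f x + g x) := by
    intro a b hab
    have h1 := hfm a b hab.le
    have h2 := hgm a b hab.le
    rcases h1.eq_or_lt with e1 | e1
    · rcases h2.eq_or_lt with e2 | e2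
      · exfalso
        have := hrec a (b + 1) b (b + 1) (by linarith) (by linarith) (by rw [e1]) (by rw [e2])
        linarith
      · simp only
        linarith
    · simp only
      linarith
  have hgood : Good f g := ⟨hcont A hA, hcont B hB, hmono, hrec⟩
  -- good points
  have hae : ∀ᵐ x, HasDerivAt f (A.indicator (fun _ => (1 : ℝ)) x) x ∧
      HasDerivAt g (B.indicator (fun _ => (1 : ℝ)) x) x := by
    filter_upwards [_root_.LocallyIntegrable.ae_hasDerivAt_integral (hloc A hA),
      _root_.LocallyIntegrable.ae_hasDerivAt_integral (hloc B hB)] with x h1 h2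
    exact ⟨h1 0, h2 0⟩
  have hpts : ∀ k : ℕ, ∃ x ∈ Ioo (k : ℝ) (k + 1) ∩ (A ∪ B),
      HasDerivAt f (A.indicator (fun _ => (1 : ℝ)) x) x ∧
      HasDerivAt g (B.indicator (fun _ => (1 : ℝ)) x) x := by
    intro k
    apply Measure.exists_mem_of_measure_ne_zero_of_ae (μ := volume) _ (ae_restrict_of_ae hae)
    intro h0
    have h1 : volume (Icc (k : ℝ) (k + 1) ∩ (A ∪ B)) = 0 := by
      rw [← h0]
      apply measure_congr
      exact (Ioo_ae_eq_Icc.symm).inter (ae_eq_refl _)
    have h2 : volume.real (Icc (k : ℝ) (k + 1) ∩ A) = 0 := by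
      unfold Measure.real
      rw [measure_mono_null (inter_subset_inter_right _ subset_union_left) h1]
      simp
    have h3 : volume.real (Icc (k : ℝ) (k + 1) ∩ B) = 0 := by
      unfold Measure.real
      rw [measure_mono_null (inter_subset_inter_right _ subset_union_right) h1]
      simp
    have h4 := hinc A hA k (k + 1) (by linarith)
    have h5 := hinc B hB k (k + 1) (by linarith)
    have h6 := hmono (show (k : ℝ) < k + 1 by linarith)
    simp only [hfdef, hgdef] at h6
    linarith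
  choose x hx hx' using hpts
  have hxm : StrictMono x := by
    apply strictMono_nat_of_lt_succ
    intro k
    have h1 := (hx k).1.2
    have h2 := (hx (k + 1)).1.1
    push_cast at h2
    linarith
  have hv : ∀ k, (A.indicator (fun _ => (1 : ℝ)) (x k) = 1 ∧
      B.indicator (fun _ => (1 : ℝ)) (x k) = 1) ∨
      (A.indicator (fun _ => (1 : ℝ)) (x k) = 1 ∧ B.indicator (fun _ => (1 : ℝ)) (x k) = 0) ∨
      (A.indicator (fun _ => (1 : ℝ)) (x k) = 0 ∧ B.indicator (fun _ => (1 : ℝ)) (x k) = 1) := by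
    intro k
    by_cases hxA : x k ∈ A
    · by_cases hxB : x k ∈ B
      · left
        simp [hxA, hxB]
      · right; left
        simp [hxA, hxB]
    · have hxB : x k ∈ B := ((hx k).2).resolve_left hxA
      right; right
      simp [hxA, hxB]
  rcases Φ_sign hgood with hΦ | hΦ
  · exact no_four hgood hΦ x hxm _ _ (fun k => (hx' k).1) (fun k => (hx' k).2) hv
  · refine no_four (good_swap hgood) (Φ_swap hgood hΦ) x hxm _ _ (fun k => (hx' k).2)
      (fun k => (hx' k).1) ?_
    intro k
    rcases hv k with h1 | h1 | h1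
    · exact Or.inl ⟨h1.2, h1.1⟩
    · exact Or.inr (Or.inr ⟨h1.2, h1.1⟩)
    · exact Or.inr (Or.inl ⟨h1.2, h1.1⟩)

end Pool.Agent.H20.RecLower
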