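import Pool.Agent.H20.RecCore

set_option autoImplicit false

/-!
Transfer of the construction from `[0,1]` to the whole line, using an open dense set of measure at
most one.
-/

namespace Pool.Agent.H20.Rec

open MeasureTheory Set

/-- an open dense set of measure at most one -/
def V : Set ℝ := ⋃ n : ℕ, Metric.ball (TopologicalSpace.denseSeq ℝ n) ((1 / 2) ^ (n + 2))

lemma isOpen_V : IsOpen V := isOpen_iUnion (fun _ => Metric.isOpen_ball)

lemma dense_V : Dense V := by
  apply (TopologicalSpace.denseRange_denseSeq ℝ).mono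
  rintro _ ⟨n, rfl⟩
  exact mem_iUnion.mpr ⟨n, Metric.mem_ball_self (by positivity)⟩

lemma volume_V : volume V ≤ 1 := by
  calc volume V ≤ ∑' n : ℕ, volume (Metric.ball (TopologicalSpace.denseSeq ℝ n)
          ((1 / 2) ^ (n + 2))) := measure_iUnion_le _
    _ = ∑' n : ℕ, ENNReal.ofReal ((1 / 2) * (1 / 2) ^ n) := by
        congr 1
        funext n
        rw [Real.volume_ball]
        congr 1
        ring
    _ = ENNReal.ofReal (∑' n : ℕ, (1 / 2 : ℝ) * (1 / 2) ^ n) := by
        rw [ENNReal.ofReal_tsum_of_nonneg]
        · intro n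
          positivity
        · exact (summable_geometric_of_lt_one (by norm_num) (by norm_num)).mul_left _
    _ = 1 := by
        rw [tsum_mul_left, tsum_geometric_of_lt_one (by norm_num) (by norm_num)]
        norm_num

noncomputable def μ : Measure ℝ := volume.restrict V

instance : IsFiniteMeasure μ := ⟨by
  unfold μ
  rw [Measure.restrict_apply_univ]
  exact volume_V.trans_lt ENNReal.one_lt_top⟩

instance : NullSingletonClass μ := by
  unfold μ
  infer_instance

noncomputable def s (x : ℝ) : ℝ := μ.real (Iic x)

lemma s_nonneg (x : ℝ) : 0 ≤ s x := measureReal_nonneg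

lemma s_le_one (x : ℝ) : s x ≤ 1 := by
  unfold s Measure.real
  have h1 : μ (Iic x) ≤ 1 := by
    calc μ (Iic x) ≤ μ univ := measure_mono (subset_univ _)
      _ ≤ 1 := by
        unfold μ
        rw [Measure.restrict_apply_univ]
        exact volume_V
  exact ENNReal.toReal_le_of_le_ofReal one_pos.le (by rw [ENNReal.ofReal_one]; exact h1)

lemma s_sub {a b : ℝ} (hab : a ≤ b) : μ.real (Ioc a b) = s b - s a := by
  have h1 : Iic b = Iic a ∪ Ioc a b := (Iic_union_Ioc_eq_Iic hab).symm
  have h2 : Disjoint (Iic a) (Ioc a b) := by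
    rw [Set.disjoint_left]
    intro y hy hy'
    exact absurd hy (not_le.mpr hy'.1)
  unfold s
  rw [h1, measureReal_union h2 measurableSet_Ioc]
  ring

lemma s_strictMono : StrictMono s := by
  intro a b hab
  have h1 := s_sub hab.le
  have h2 : 0 < μ.real (Ioc a b) := by
    apply ENNReal.toReal_pos _ (measure_ne_top _ _)
    apply ne_of_gt
    have h3 : (0 : ENNReal) < volume (V ∩ Ioo a b) := by
      obtain ⟨y, hy1, hy2⟩ := dense_V.inter_open_nonempty _ isOpen_Ioo (nonempty_Ioo.mpr hab)
      exact (isOpen_V.inter isOpen_Ioo).measure_pos volume ⟨y, hy2, hy1⟩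
    calc (0 : ENNReal) < volume (V ∩ Ioo a b) := h3
      _ = volume (Ioo a b ∩ V) := by rw [inter_comm]
      _ ≤ volume (Ioc a b ∩ V) := measure_mono (inter_subset_inter_left _ Ioo_subset_Ioc_self)
      _ = μ (Ioc a b) := by
        unfold μ
        rw [Measure.restrict_apply measurableSet_Ioc]
  linarith

lemma s_lip {a b : ℝ} (hab : a ≤ b) : s b - s a ≤ b - a := by
  rw [← s_sub hab]
  apply ENNReal.toReal_le_of_le_ofReal (by linarith)
  rw [← Real.volume_Ioc]
  exact Measure.restrict_apply_le _ _

lemma s_continuous : Continuous s := by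
  have h : LipschitzWith 1 s := by
    apply LipschitzWith.of_dist_le_mul
    intro x y
    rw [Real.dist_eq, Real.dist_eq, NNReal.coe_one, one_mul]
    rcases le_total x y with h | h
    · have h1 := s_lip h
      have h2 := s_strictMono.monotone h
      rw [abs_sub_comm, abs_sub_comm x y, abs_of_nonneg (by linarith), abs_of_nonneg (by linarith)]
      exact h1
    · have h1 := s_lip h
      have h2 := s_strictMono.monotone h
      rw [abs_of_nonneg (by linarith), abs_of_nonneg (by linarith)]
      exact h1
  exact h.continuous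

lemma μ_Icc {a b : ℝ} (hab : a ≤ b) : μ (Icc a b) = ENNReal.ofReal (s b - s a) := by
  rw [← measure_congr (Ioc_ae_eq_Icc (μ := μ) (a := a) (b := b)), ← s_sub hab]
  unfold Measure.real
  rw [ENNReal.ofReal_toReal (measure_ne_top _ _)]

lemma map_s {a b : ℝ} (hab : a ≤ b) :
    (μ.restrict (Ico a b)).map s = volume.restrict (Ico (s a) (s b)) := by
  apply Measure.ext_of_Iic
  intro t
  rw [Measure.map_apply s_continuous.measurable measurableSet_Iic,
    Measure.restrict_apply (s_continuous.measurable measurableSet_Iic),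
    Measure.restrict_apply measurableSet_Iic]
  rcases lt_or_ge t (s a) with h1 | h1
  · have h2 : s ⁻¹' Iic t ∩ Ico a b = ∅ := by
      ext y
      simp only [mem_inter_iff, mem_preimage, mem_Iic, mem_Ico, mem_empty_iff_false, iff_false,
        not_and]
      intro h3 h4
      have := s_strictMono.monotone h4
      linarith
    have h3 : Iic t ∩ Ico (s a) (s b) = ∅ := by
      ext y
      simp only [mem_inter_iff, mem_Iic, mem_Ico, mem_empty_iff_false, iff_false, not_and]
      intro h3 h4
      linarith
    rw [h2, h3, measure_empty, measure_empty]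
  rcases lt_or_ge t (s b) with h2 | h2
  · obtain ⟨c, hc, hct⟩ := intermediate_value_Icc hab s_continuous.continuousOn ⟨h1, h2.le⟩
    have hcb : c < b := by
      apply s_strictMono.lt_iff_lt.mp
      rw [hct]
      exact h2
    have h3 : s ⁻¹' Iic t ∩ Ico a b = Icc a c := by
      ext y
      simp only [mem_inter_iff, mem_preimage, mem_Iic, mem_Ico, mem_Icc]
      rw [← hct, s_strictMono.le_iff_le]
      constructor
      · rintro ⟨h4, h5, h6⟩
        exact ⟨h5, h4⟩
      · rintro ⟨h4, h5⟩
        exact ⟨h5, h4, h5.trans_lt hcb⟩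
    have h4 : Iic t ∩ Ico (s a) (s b) = Icc (s a) t := by
      ext y
      simp only [mem_inter_iff, mem_Iic, mem_Ico, mem_Icc]
      constructor
      · rintro ⟨h4, h5, h6⟩
        exact ⟨h5, h4⟩
      · rintro ⟨h4, h5⟩
        exact ⟨h5, h4, h5.trans_lt h2⟩
    rw [h3, h4, μ_Icc hc.1, hct, Real.volume_Icc]
  · have h3 : s ⁻¹' Iic t ∩ Ico a b = Ico a b := by
      apply inter_eq_right.mpr
      intro y hy
      exact (s_strictMono.monotone hy.2.le).trans h2
    have h4 : Iic t ∩ Ico (s a) (s b) = Ico (s a) (s b) := by
      apply inter_eq_right.mpr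
      intro y hy
      exact hy.2.le.trans h2
    rw [h3, h4, measure_congr (Ico_ae_eq_Icc (μ := μ) (a := a) (b := b)), μ_Icc hab,
      Real.volume_Ico]

/-- the test sets on the line -/
noncomputable def TR (Y : Fin 3) : Set ℝ := V ∩ s ⁻¹' (T Y)

lemma measurableSet_TR (Y : Fin 3) : MeasurableSet (TR Y) :=
  isOpen_V.measurableSet.inter (s_continuous.measurable (measurableSet_T Y))

lemma volume_TR (Y : Fin 3) {a b : ℝ} (hab : a ≤ b) :
    volume.real (Icc a b ∩ TR Y) = G Y (s b) - G Y (s a) := by
  have h1 : volume (Icc a b ∩ TR Y) = volume (Ico (s a) (s b) ∩ T Y) := by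
    calc volume (Icc a b ∩ TR Y) = volume (Ico a b ∩ TR Y) := by
          apply measure_congr
          exact (Ico_ae_eq_Icc.symm).inter (ae_eq_refl _)
      _ = volume ((s ⁻¹' (T Y) ∩ Ico a b) ∩ V) := by
          congr 1
          unfold TR
          ext y
          simp only [mem_inter_iff]
          tauto
      _ = (μ.restrict (Ico a b)).map s (T Y) := by
          rw [Measure.map_apply s_continuous.measurable (measurableSet_T Y),
            Measure.restrict_apply (s_continuous.measurable (measurableSet_T Y))]
          unfold μ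
          rw [Measure.restrict_apply
            ((s_continuous.measurable (measurableSet_T Y)).inter measurableSet_Ico)]
      _ = volume (Ico (s a) (s b) ∩ T Y) := by
          rw [map_s hab, Measure.restrict_apply (measurableSet_T Y), inter_comm]
  have h2 := s_strictMono.monotone hab
  have h3 := fc_eq (Y := Y) (x := s a) (h := s b - s a) (s_nonneg a) (by linarith)
  have h4 : s a + (s b - s a) = s b := by ring
  unfold fc at h3
  rw [h4] at h3
  rw [← h3]
  unfold Measure.real
  rw [h1]

/-- three test sets suffice -/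
theorem three_suffice {a b c d : ℝ} (hab : a < b) (hcd : c < d)
    (h : ∀ Y, volume (Icc a b ∩ TR Y) = volume (Icc c d ∩ TR Y)) : a = c ∧ b = d := by
  have h1 : ∀ Y, G Y (s b) - G Y (s a) = G Y (s d) - G Y (s c) := by
    intro Y
    rw [← volume_TR Y hab.le, ← volume_TR Y hcd.le]
    unfold Measure.real
    rw [h Y]
  obtain ⟨h2, h3⟩ := G_inj (s_nonneg a) (s_strictMono hab) (s_le_one b) (s_nonneg c)
    (s_strictMono hcd) (s_le_one d) h1
  exact ⟨s_strictMono.injective h2, s_strictMono.injective h3⟩

end Pool.Agent.H20.Rec
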